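import Mathlib

open MeasureTheory Measure Topology Set Filter
open scoped ENNReal ComplexConjugate Pointwise

namespace Pool.Agent.V1175.BA

noncomputable section

/-- The Pontryagin dual carries its Borel sets. -/
instance (G : Type*) [Monoid G] [TopologicalSpace G] : MeasurableSpace (PontryaginDual G) := borel _
instance (G : Type*) [Monoid G] [TopologicalSpace G] : BorelSpace (PontryaginDual G) := ⟨rfl⟩

section defs
variable {G : Type*} [CommGroup G] [TopologicalSpace G] [IsTopologicalGroup G]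
  [LocallyCompactSpace G] [MeasurableSpace G] [BorelSpace G]

/-- The Fourier transform of an integrable function. -/
def fourier (f : G → ℂ) (χ : PontryaginDual G) : ℂ :=
  ∫ x, f x * conj ((χ x : Circle) : ℂ) ∂(haar : Measure G)

/-- `ψ_{λ,a}(x) = Δ(a)^{1/2} ψ(a(x) λ⁻¹)`. -/
def dil (ψ : G → ℂ) (l : G) (a : G ≃ₜ* G) (x : G) : ℂ :=
  ((Real.sqrt (mulEquivHaarChar a) : ℝ) : ℂ) * ψ (a x / l)

/-- The family `F` is an orthogonal basis of `L²(G)`. -/
def IsOrthBasis {ι : Type*} (F : ι → G → ℂ) : Prop :=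
  ∃ hF : ∀ i, MemLp (F i) 2 (haar : Measure G),
    (∀ i, (hF i).toLp (F i) ≠ 0) ∧
    (Pairwise fun i j => inner ℂ ((hF i).toLp (F i)) ((hF j).toLp (F j)) = 0) ∧
    (Submodule.span ℂ (Set.range fun i => (hF i).toLp (F i))).topologicalClosure = ⊤

/-- `Ω` is a wavelet set with respect to `B`. -/
def IsWaveletSet (B : Set (G × (G ≃ₜ* G))) (Ω : Set (PontryaginDual G)) : Prop :=
  MeasurableSet Ω ∧ 0 < haar Ω ∧ haar Ω < ⊤ ∧
  ∃ ψ : G → ℂ, Integrable ψ (haar : Measure G) ∧ MemLp ψ 2 (haar : Measure G) ∧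
    (∀ χ, fourier ψ χ = Ω.indicator (fun _ => (1 : ℂ)) χ) ∧
    IsOrthBasis (fun b : B => dil ψ b.1.1 b.1.2)

/-- `Ω` tiles the dual group additively. -/
def TilesAdditively (Ω : Set (PontryaginDual G)) : Prop :=
  ∃ T : Set (PontryaginDual G), T.Countable ∧
    ∀ᵐ χ ∂(haar : Measure (PontryaginDual G)),
      ∑' t : T, Ω.indicator (fun _ => (1 : ℝ≥0∞)) (χ / (t : PontryaginDual G)) = 1

end defs

end

end Pool.Agent.V1175.BA
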