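import Pool.Agent.V1175.BA.Defs

open MeasureTheory Measure Topology Set Filter
open scoped ENNReal ComplexConjugate Pointwise

namespace Pool.Agent.V1175.BA

noncomputable section

/-! ### The group `G` : sequences `ℤ → {±1}` that are `1` far to the right -/

def GS : Subgroup (ℤ → ℤˣ) where
  carrier := {x | ∃ N : ℤ, ∀ k, N ≤ k → x k = 1}
  mul_mem' := by
    rintro a b ⟨N, hN⟩ ⟨M, hM⟩
    exact ⟨max N M, fun k hk => by
      simp [hN k (le_trans (le_max_left _ _) hk), hM k (le_trans (le_max_right _ _) hk)]⟩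
  one_mem' := ⟨0, fun k _ => rfl⟩
  inv_mem' := by
    rintro a ⟨N, hN⟩
    exact ⟨N, fun k hk => by simp [hN k hk]⟩

def DS : Subgroup (ℕ → ℤˣ) where
  carrier := {x | ∃ N : ℕ, ∀ k, N ≤ k → x k = 1}
  mul_mem' := by
    rintro a b ⟨N, hN⟩ ⟨M, hM⟩
    exact ⟨max N M, fun k hk => by
      simp [hN k (le_trans (le_max_left _ _) hk), hM k (le_trans (le_max_right _ _) hk)]⟩
  one_mem' := ⟨0, fun k _ => rfl⟩
  inv_mem' := by
    rintro a ⟨N, hN⟩
    exact ⟨N, fun k hk => by simp [hN k hk]⟩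

def D : Type := DS
instance : CommGroup D := inferInstanceAs (CommGroup DS)
instance : TopologicalSpace D := ⊥
instance : DiscreteTopology D := ⟨rfl⟩
instance : Countable D := by
  classical
  let φ : D → Finset ℕ := fun x => (Finset.range x.2.choose).filter (fun k => x.1 k ≠ 1)
  refine Function.Injective.countable (f := φ) ?_
  intro x y h
  apply Subtype.ext
  funext k
  have key : ∀ (z : D) (k : ℕ), k ∈ φ z ↔ z.1 k ≠ 1 := by
    intro z k
    simp only [φ, Finset.mem_filter, Finset.mem_range]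
    constructor
    · exact fun h => h.2
    · intro h
      refine ⟨?_, h⟩
      by_contra h2
      exact h (z.2.choose_spec k (not_lt.1 h2))
  have h3 : (x.1 k ≠ 1) ↔ (y.1 k ≠ 1) := by rw [← key, ← key, h]
  rcases Int.units_eq_one_or (x.1 k) with h1 | h1 <;> rcases Int.units_eq_one_or (y.1 k) with h2 | h2
  · rw [h1, h2]
  · rw [h1, h2] at h3; simp at h3
  · rw [h1, h2] at h3; simp at h3
  · rw [h1, h2]

def GG : Type := GS
instance : CommGroup GG := inferInstanceAs (CommGroup GS)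
/-- the coordinates of an element of `GG` -/
def co (x : GG) : ℤ → ℤˣ := Subtype.val x
instance : CoeFun GG (fun _ => ℤ → ℤˣ) := ⟨co⟩
lemma ev (x : GG) : ∃ N : ℤ, ∀ k, N ≤ k → x k = 1 := x.2

@[ext] lemma GG.ext' {x y : GG} (h : ∀ k, x k = y k) : x = y := Subtype.ext (funext h)
@[simp] lemma mul_co (x y : GG) (k : ℤ) : (x * y) k = x k * y k := rfl
@[simp] lemma inv_co (x : GG) (k : ℤ) : (x⁻¹) k = (x k)⁻¹ := rfl
@[simp] lemma div_co (x y : GG) (k : ℤ) : (x / y) k = x k / y k := rfl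
@[simp] lemma one_co (k : ℤ) : (1 : GG) k = 1 := rfl

def eG : GG ≃* D × (ℕ → ℤˣ) where
  toFun x := (⟨fun j => x j, by
    obtain ⟨N, hN⟩ := x.2
    exact ⟨N.toNat, fun k hk => hN k (by omega)⟩⟩, fun j => x (Int.negSucc j))
  invFun y := ⟨fun k => match k with
    | Int.ofNat j => y.1.1 j
    | Int.negSucc j => y.2 j, by
    obtain ⟨N, hN⟩ := y.1.2
    refine ⟨N, fun k hk => ?_⟩
    obtain ⟨j, rfl⟩ := Int.eq_ofNat_of_zero_le (le_trans (Int.natCast_nonneg N) hk)
    exact hN j (by omega)⟩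
  left_inv _ := by
    apply GG.ext'
    intro k
    cases k <;> rfl
  right_inv y := by
    obtain ⟨d, p⟩ := y
    rfl
  map_mul' x y := rfl

instance : TopologicalSpace GG := TopologicalSpace.induced eG inferInstance
instance : IsTopologicalGroup GG := topologicalGroup_induced eG
def eH : GG ≃ₜ D × (ℕ → ℤˣ) := eG.toEquiv.toHomeomorphOfIsInducing ⟨rfl⟩
instance : T2Space GG := eH.isEmbedding.t2Space
instance : SecondCountableTopology GG := eH.secondCountableTopology
instance : LocallyCompactSpace GG := eH.isClosedEmbedding.locallyCompactSpace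
instance : MeasurableSpace GG := borel _
instance : BorelSpace GG := ⟨rfl⟩

/-- `U m` : the sequences that are `1` from place `m` on. -/
def U (m : ℤ) : Subgroup GG where
  carrier := {x | ∀ k, m ≤ k → x k = 1}
  mul_mem' := fun {a b} ha hb k hk => by simp [ha k hk, hb k hk]
  one_mem' := fun k _ => rfl
  inv_mem' := fun {a} ha k hk => by simp [ha k hk]

lemma mem_U {m : ℤ} {x : GG} : x ∈ U m ↔ ∀ k, m ≤ k → x k = 1 := Iff.rfl

lemma U_mono {m n : ℤ} (h : m ≤ n) : U m ≤ U n := fun x hx k hk => hx k (le_trans h hk)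

lemma cont_co_neg (j : ℕ) : Continuous fun x : GG => x (Int.negSucc j) :=
  (continuous_apply j).comp (continuous_snd.comp eH.continuous)

lemma U0_eq : (U 0 : Set GG) = eH ⁻¹' ({1} ×ˢ univ) := by
  ext x
  constructor
  · intro h
    refine ⟨?_, mem_univ _⟩
    show (eG x).1 = 1
    apply Subtype.ext
    funext j
    exact h j (by omega)
  · rintro ⟨h, -⟩ k hk
    obtain ⟨j, rfl⟩ := Int.eq_ofNat_of_zero_le hk
    have h2 : (eG x).1 = 1 := h
    have h3 := congrArg (fun d : D => d.1 j) h2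
    exact h3

lemma U0_open : IsOpen (U 0 : Set GG) := by
  rw [U0_eq]
  exact (((isOpen_discrete _).prod isOpen_univ)).preimage eH.continuous

lemma U0_compact : IsCompact (U 0 : Set GG) := by
  rw [U0_eq]
  exact eH.isCompact_preimage.2 (isCompact_singleton.prod isCompact_univ)

lemma U_open (m : ℤ) : IsOpen (U m : Set GG) := by
  rcases le_total 0 m with h | h
  · exact Subgroup.isOpen_mono (U_mono h) U0_open
  · have : (U m : Set GG) = (U 0 : Set GG) ∩ ⋂ j ∈ Finset.range (-m).toNat, {x : GG | x (Int.negSucc j) = 1} := by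
      ext x
      simp only [mem_inter_iff, mem_iInter, mem_ofPred_eq, SetLike.mem_coe, Finset.mem_range]
      constructor
      · intro hx
        refine ⟨U_mono h hx, fun j hj => hx _ (by omega)⟩
      · rintro ⟨h1, h2⟩ k hk
        cases k with
        | ofNat j => exact h1 _ (by simp)
        | negSucc j => exact h2 j (by omega)
    rw [this]
    refine U0_open.inter (isOpen_biInter_finset fun j _ => ?_)
    exact (isOpen_discrete ({1} : Set ℤˣ)).preimage (cont_co_neg j)

lemma U_closed (m : ℤ) : IsClosed (U m : Set GG) := (U m).isClosed_of_isOpen (U_open m)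

/-- the sequence that is `v` at place `k` and `1` elsewhere -/
def del (k : ℤ) (v : ℤˣ) : GG := ⟨Pi.mulSingle k v, k + 1, fun j hj => by
  rw [Pi.mulSingle_eq_of_ne]; omega⟩

lemma del_co (k : ℤ) (v : ℤˣ) (j : ℤ) : del k v j = if j = k then v else 1 := by
  show (Pi.mulSingle k v : ℤ → ℤˣ) j = _
  rw [Pi.mulSingle_apply]

lemma U_succ (m : ℤ) : (U (m + 1) : Set GG) = (U m : Set GG) ∪ (del m (-1)) • (U m : Set GG) := by
  ext x
  simp only [mem_union, SetLike.mem_coe, mem_smul_set_iff_inv_smul_mem, smul_eq_mul]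
  constructor
  · intro h
    rcases Int.units_eq_one_or (x m) with h1 | h1
    · left
      intro k hk
      rcases eq_or_lt_of_le hk with rfl | hk
      · exact h1
      · exact h k (by omega)
    · right
      intro k hk
      rcases eq_or_lt_of_le hk with rfl | hk
      · simp [del_co, h1]
      · simp [del_co, show k ≠ m by omega, h k (by omega)]
  · rintro (h | h) k hk
    · exact h k (by omega)
    · have := h k (by omega)
      simpa [del_co, show k ≠ m by omega] using this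

lemma U_disj (m : ℤ) : Disjoint (U m : Set GG) ((del m (-1)) • (U m : Set GG)) := by
  rw [Set.disjoint_left]
  intro x h1 h2
  rw [mem_smul_set_iff_inv_smul_mem] at h2
  have h3 := h1 m le_rfl
  have h4 := h2 m le_rfl
  simp [del_co, h3] at h4

lemma U_compact (m : ℤ) : IsCompact (U m : Set GG) := by
  rcases le_total m 0 with h | h
  · exact U0_compact.of_isClosed_subset (U_closed m) (U_mono h)
  · obtain ⟨j, rfl⟩ := Int.eq_ofNat_of_zero_le h
    clear h
    induction j with
    | zero => exact U0_compact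
    | succ j ih =>
      push_cast
      rw [U_succ]
      exact ih.union (ih.smul _)

lemma nhds_one_sub {s : Set GG} (hs : s ∈ 𝓝 (1 : GG)) : ∃ m : ℤ, (U m : Set GG) ⊆ s := by
  have h1 : 𝓝 (1 : GG) = comap eH (𝓝 (eH 1)) := eH.isInducing.nhds_eq_comap 1
  rw [h1] at hs
  obtain ⟨t, ht, hts⟩ := hs
  rw [nhds_prod_eq] at ht
  obtain ⟨t1, ht1, t2, ht2, hsub⟩ := Filter.mem_prod_iff.1 ht
  rw [nhds_pi] at ht2
  obtain ⟨I, hI, V, hV, hVt⟩ := Filter.mem_pi.1 ht2
  obtain ⟨N, hN⟩ := hI.bddAbove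
  refine ⟨-(N + 1 : ℤ), fun x hx => hts (hsub ⟨?_, hVt fun i hi => ?_⟩)⟩
  · have : (eH x).1 = (eH 1).1 := by
      apply Subtype.ext
      funext j
      exact hx j (by omega)
    rw [this]
    exact mem_of_mem_nhds ht1
  · have h5 : (eH x).2 i = (eH 1).2 i := by
      have := hN hi
      exact hx (Int.negSucc i) (by omega)
    rw [h5]
    exact mem_of_mem_nhds (hV i)

lemma cont_of_hom (φ : GG →* GG) (h : ∀ m : ℤ, ∃ m' : ℤ, ∀ x ∈ U m', φ x ∈ U m) : Continuous φ := by
  refine continuous_of_continuousAt_one φ ?_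
  rw [ContinuousAt, map_one]
  intro s hs
  obtain ⟨m, hm⟩ := nhds_one_sub hs
  obtain ⟨m', hm'⟩ := h m
  rw [Filter.mem_map]
  exact Filter.mem_of_superset ((U_open m').mem_nhds (U m').one_mem) fun x hx => hm (hm' x hx)

lemma cont_of_inv {X : Type*} [TopologicalSpace X] (f : GG → X) (m : ℤ)
    (h : ∀ x, ∀ u ∈ U m, f (x * u) = f x) : Continuous f := by
  rw [continuous_iff_continuousAt]
  intro x
  have h1 : (x • (U m : Set GG)) ∈ 𝓝 x :=
    ((U_open m).smul x).mem_nhds ⟨1, (U m).one_mem, by simp⟩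
  refine continuousAt_const.congr (f := fun _ => f x) ?_
  filter_upwards [h1] with y hy
  obtain ⟨u, hu, rfl⟩ := hy
  exact (h x u hu).symm


/-! ### Haar measure of `U m` -/

lemma mu_U_pos (m : ℤ) : 0 < (haar : Measure GG) (U m) :=
  (U_open m).measure_pos _ ⟨1, (U m).one_mem⟩

lemma mu_U_fin (m : ℤ) : (haar : Measure GG) (U m) < ⊤ := (U_compact m).measure_lt_top

lemma mu_U_succ (m : ℤ) : (haar : Measure GG) (U (m + 1)) = 2 * (haar : Measure GG) (U m) := by
  rw [U_succ, measure_union (U_disj m) ((U_open m).smul _).measurableSet, measure_smul, two_mul]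

lemma mur_U_pos (m : ℤ) : 0 < (haar : Measure GG).real (U m) :=
  ENNReal.toReal_pos (mu_U_pos m).ne' (mu_U_fin m).ne

lemma mur_U_succ (m : ℤ) : (haar : Measure GG).real (U (m + 1)) = 2 * (haar : Measure GG).real (U m) := by
  rw [Measure.real, mu_U_succ, ENNReal.toReal_mul]; rfl

/-! ### The automorphisms -/

def shiftFun (m : ℤ) (x : GG) : GG := ⟨fun k => x (k + m), by
  obtain ⟨N, hN⟩ := x.2
  exact ⟨N - m, fun k hk => hN _ (by omega)⟩⟩

@[simp] lemma shiftFun_co (m : ℤ) (x : GG) (k : ℤ) : shiftFun m x k = x (k + m) := rfl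

def shiftHom (m : ℤ) : GG →* GG where
  toFun := shiftFun m
  map_one' := rfl
  map_mul' _ _ := rfl

lemma shift_cont (m : ℤ) : Continuous (shiftFun m) :=
  cont_of_hom (shiftHom m) fun j => ⟨j + m, fun x hx k hk => hx _ (by omega)⟩

def shift (m : ℤ) : GG ≃ₜ* GG where
  toFun := shiftFun m
  invFun := shiftFun (-m)
  left_inv _ := by ext k; simp
  right_inv _ := by ext k; simp
  map_mul' _ _ := rfl
  continuous_toFun := shift_cont m
  continuous_invFun := shift_cont (-m)

def t0 (z : Fin 6) (a b c : ℤˣ) : ℤˣ :=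
  match z with
  | 0 => a
  | 1 => b
  | 2 => a * b
  | 3 => a * c
  | 4 => b * c
  | 5 => a * b * c

def t1 (z : Fin 6) (a b c : ℤˣ) : ℤˣ :=
  match z with
  | 0 => b
  | 1 => a
  | 2 => b
  | 3 => b
  | 4 => a * c
  | 5 => b

lemma t0_inv : ∀ (z : Fin 6) (a b c : ℤˣ), t0 z (t0 z a b c) (t1 z a b c) c = a := by decide
lemma t1_inv : ∀ (z : Fin 6) (a b c : ℤˣ), t1 z (t0 z a b c) (t1 z a b c) c = b := by decide
lemma t0_one : ∀ (z : Fin 6), t0 z 1 1 1 = 1 := by decide
lemma t1_one : ∀ (z : Fin 6), t1 z 1 1 1 = 1 := by decide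
lemma t0_mul : ∀ (z : Fin 6) (a b c a' b' c' : ℤˣ),
    t0 z (a * a') (b * b') (c * c') = t0 z a b c * t0 z a' b' c' := by decide
lemma t1_mul : ∀ (z : Fin 6) (a b c a' b' c' : ℤˣ),
    t1 z (a * a') (b * b') (c * c') = t1 z a b c * t1 z a' b' c' := by decide

def twFun (z : Fin 6) (x : GG) : GG := ⟨fun k => if k = 0 then t0 z (x 0) (x 1) (x 2) else
    if k = 1 then t1 z (x 0) (x 1) (x 2) else x k, by
  obtain ⟨N, hN⟩ := ev x
  refine ⟨max N 2, fun k hk => ?_⟩
  have h1 : k ≠ 0 := by omega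
  have h2 : k ≠ 1 := by omega
  show (if k = 0 then _ else if k = 1 then _ else x k) = 1
  rw [if_neg h1, if_neg h2, hN k (by omega)]⟩

lemma twFun_co (z : Fin 6) (x : GG) (k : ℤ) : twFun z x k = if k = 0 then t0 z (x 0) (x 1) (x 2) else
    if k = 1 then t1 z (x 0) (x 1) (x 2) else x k := rfl

lemma tw_tw (z : Fin 6) (x : GG) : twFun z (twFun z x) = x := by
  ext k
  rw [twFun_co]
  split_ifs with h1 h2
  · subst h1; simp [twFun_co, t0_inv]
  · subst h2; simp [twFun_co, t1_inv]
  · simp [twFun_co, h1, h2]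

def twHom (z : Fin 6) : GG →* GG where
  toFun := twFun z
  map_one' := by
    ext k
    rw [twFun_co]
    split_ifs <;> simp [t0_one, t1_one]
  map_mul' x y := by
    ext k
    simp only [twFun_co, mul_co]
    split_ifs <;> simp [t0_mul, t1_mul]

lemma tw_U (z : Fin 6) {m : ℤ} (hm : m ≤ 0) {x : GG} (hx : x ∈ U m) : twFun z x ∈ U m := by
  intro k hk
  rw [twFun_co, hx 0 hm, hx 1 (by omega), hx 2 (by omega), hx k hk, t0_one, t1_one]
  simp

lemma tw_cont (z : Fin 6) : Continuous (twFun z) :=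
  cont_of_hom (twHom z) fun j => ⟨min j 0, fun x hx =>
    U_mono (min_le_left _ _) (tw_U z (min_le_right _ _) hx)⟩

def tw (z : Fin 6) : GG ≃ₜ* GG where
  toFun := twFun z
  invFun := twFun z
  left_inv := tw_tw z
  right_inv := tw_tw z
  map_mul' := (twHom z).map_mul
  continuous_toFun := tw_cont z
  continuous_invFun := tw_cont z

def au (n : ℤ) (z : Fin 6) : GG ≃ₜ* GG := (shift (2 * n + 1)).trans (tw z)

lemma au_co (n : ℤ) (z : Fin 6) (x : GG) (k : ℤ) : (au n z x) k =
    if k = 0 then t0 z (x (2 * n + 1)) (x (2 * n + 2)) (x (2 * n + 3)) else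
    if k = 1 then t1 z (x (2 * n + 1)) (x (2 * n + 2)) (x (2 * n + 3)) else x (k + (2 * n + 1)) := by
  show twFun z (shiftFun (2 * n + 1) x) k = _
  simp only [twFun_co, shiftFun_co]
  rw [show (0 : ℤ) + (2 * n + 1) = 2 * n + 1 by ring, show (1 : ℤ) + (2 * n + 1) = 2 * n + 2 by ring,
    show (2 : ℤ) + (2 * n + 1) = 2 * n + 3 by ring]

lemma mur_U_zpow (m : ℤ) : (haar : Measure GG).real (U m) = 2 ^ m * (haar : Measure GG).real (U 0) := by
  induction m using Int.induction_on with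
  | zero => simp
  | succ i ih => rw [mur_U_succ, ih, zpow_add_one₀ (by norm_num)]; ring
  | pred i ih =>
    have h := mur_U_succ (-(i : ℤ) - 1)
    rw [sub_add_cancel, ih] at h
    rw [zpow_sub_one₀ (by norm_num)]
    linarith

lemma au_char (n : ℤ) (z : Fin 6) : mulEquivHaarChar (au n z) ≠ 1 := by
  intro h
  have h1 := mulEquivHaarChar_smul_preimage (haar : Measure GG) (X := (U 0 : Set GG)) (au n z)
  rw [h, one_smul] at h1
  have h2 : (au n z) ⁻¹' (U 0 : Set GG) = (U (2 * n + 1) : Set GG) := by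
    ext x
    constructor
    · intro hx k hk
      have e0 := hx 0 le_rfl
      have e1 := hx 1 (by omega)
      have e2 := hx 2 (by omega)
      rw [au_co] at e0 e1 e2
      simp only [if_true, if_false, one_ne_zero, OfNat.ofNat_ne_zero, OfNat.ofNat_ne_one] at e0 e1 e2
      rw [show (2 : ℤ) + (2 * n + 1) = 2 * n + 3 by ring] at e2
      have f0 := t0_inv z (x (2 * n + 1)) (x (2 * n + 2)) (x (2 * n + 3))
      have f1 := t1_inv z (x (2 * n + 1)) (x (2 * n + 2)) (x (2 * n + 3))
      rw [e0, e1, e2, t0_one] at f0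
      rw [e0, e1, e2, t1_one] at f1
      rcases eq_or_lt_of_le hk with rfl | hk
      · exact f0.symm
      rcases eq_or_lt_of_le (show 2 * n + 2 ≤ k by omega) with rfl | hk2
      · exact f1.symm
      have e3 := hx (k - (2 * n + 1)) (by omega)
      rw [au_co, if_neg (by omega), if_neg (by omega), sub_add_cancel] at e3
      exact e3
    · intro hx k hk
      rw [au_co, hx _ le_rfl, hx (2 * n + 2) (by omega), hx (2 * n + 3) (by omega), t0_one, t1_one,
        hx _ (by omega)]
      simp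
  rw [h2] at h1
  have h3 : (haar : Measure GG).real (U (2 * n + 1)) = (haar : Measure GG).real (U 0) := by
    rw [Measure.real, Measure.real, h1]
  rw [mur_U_zpow] at h3
  have h4 : (2 : ℝ) ^ (2 * n + 1) = 1 := by
    have := mur_U_pos 0
    field_simp at h3
    exact h3
  have h5 : (2 * n + 1 : ℤ) = 0 := by
    have : (2 : ℝ) ^ (2 * n + 1) = 2 ^ (0 : ℤ) := by rw [h4, zpow_zero]
    exact zpow_right_injective₀ (by norm_num) (by norm_num) this
  omega

/-! ### The wavelet -/

def gg (a b c : ℤˣ) : ℤ := (if a = 1 ∧ b = 1 ∧ c = 1 then 8 else 0) - 1 - c - a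

def l0 (z : Fin 6) : ℤˣ :=
  match z with
  | 0 => 1
  | 1 => -1
  | 2 => -1
  | 3 => -1
  | 4 => 1
  | 5 => 1

def l1 (z : Fin 6) : ℤˣ :=
  match z with
  | 0 => 1
  | 1 => -1
  | 2 => 1
  | 3 => 1
  | 4 => 1
  | 5 => 1

def l2 (z : Fin 6) : ℤˣ :=
  match z with
  | 0 => 1
  | 1 => 1
  | 2 => 1
  | 3 => -1
  | 4 => -1
  | 5 => -1

def Gz (z : Fin 6) (a b c : ℤˣ) : ℤ := gg (t0 z a b c / l0 z) (t1 z a b c / l1 z) (c / l2 z)

lemma O1 : ∀ z z' : Fin 6, z ≠ z' → ∑ a : ℤˣ, ∑ b : ℤˣ, ∑ c : ℤˣ, Gz z a b c * Gz z' a b c = 0 := by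
  decide

lemma O2 : ∀ (z : Fin 6) (p q c : ℤˣ), ∑ a : ℤˣ, ∑ b : ℤˣ, Gz z (p * a) (q * b) c = 0 := by
  decide

lemma O3 : ∀ a b c a' b' c' : ℤˣ, ∑ z : Fin 6, Gz z a b c * Gz z a' b' c' =
    (if a = a' ∧ b = b' ∧ c = c' then 40 else 0) - (if c = c' then 10 else 0) := by
  decide

lemma O1' (z z' : Fin 6) (h : z ≠ z') (p q r : ℤˣ) :
    ∑ a : ℤˣ, ∑ b : ℤˣ, ∑ c : ℤˣ, Gz z (p * a) (q * b) (r * c) * Gz z' (p * a) (q * b) (r * c) = 0 := by
  refine Eq.trans ?_ (O1 z z' h)
  exact (Equiv.sum_comp (Equiv.mulLeft p) (fun a => ∑ b : ℤˣ, ∑ c : ℤˣ,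
      Gz z a (q * b) (r * c) * Gz z' a (q * b) (r * c))).trans
    (Finset.sum_congr rfl fun a _ => (Equiv.sum_comp (Equiv.mulLeft q) (fun b => ∑ c : ℤˣ,
      Gz z a b (r * c) * Gz z' a b (r * c))).trans
    (Finset.sum_congr rfl fun b _ => Equiv.sum_comp (Equiv.mulLeft r) (fun c =>
      Gz z a b c * Gz z' a b c)))

lemma sum3 (F : ℤˣ → ℤˣ → ℤˣ → ℤ) (p q r : ℤˣ) :
    ∑ a : ℤˣ, ∑ b : ℤˣ, ∑ c : ℤˣ, F (p * a) (q * b) (r * c) = ∑ a : ℤˣ, ∑ b : ℤˣ, ∑ c : ℤˣ, F a b c :=
  (Equiv.sum_comp (Equiv.mulLeft p) (fun a => ∑ b : ℤˣ, ∑ c : ℤˣ, F a (q * b) (r * c))).trans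
    (Finset.sum_congr rfl fun a _ => (Equiv.sum_comp (Equiv.mulLeft q) (fun b => ∑ c : ℤˣ,
      F a b (r * c))).trans
    (Finset.sum_congr rfl fun b _ => Equiv.sum_comp (Equiv.mulLeft r) (fun c => F a b c)))

def cst : ℝ := ((haar : Measure GG).real (U 3))⁻¹

lemma cst_pos : 0 < cst := inv_pos.2 (mur_U_pos 3)

open Classical in
def psiR (x : GG) : ℝ := if x ∈ U 3 then cst * (gg (x 0) (x 1) (x 2) : ℤ) else 0

lemma psiR_pos {x : GG} (h : x ∈ U 3) : psiR x = cst * (gg (x 0) (x 1) (x 2) : ℤ) := if_pos h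
lemma psiR_neg {x : GG} (h : x ∉ U 3) : psiR x = 0 := if_neg h

def psi (x : GG) : ℂ := (psiR x : ℂ)

lemma psiR_inv (x u : GG) (hu : u ∈ U 0) : psiR (x * u) = psiR x := by
  have h3 : x * u ∈ U 3 ↔ x ∈ U 3 := by
    constructor
    · intro h k hk
      have := h k hk
      rwa [mul_co, hu k (by omega), mul_one] at this
    · intro h k hk
      rw [mul_co, hu k (by omega), mul_one]
      exact h k hk
  by_cases hx : x ∈ U 3
  · rw [psiR_pos hx, psiR_pos (h3.2 hx)]
    simp only [mul_co, hu 0 le_rfl, hu 1 (by omega), hu 2 (by omega), mul_one]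
  · rw [psiR_neg hx, psiR_neg (mt h3.1 hx)]

lemma psiR_cont : Continuous psiR := cont_of_inv psiR 0 psiR_inv

lemma psiR_cpt : HasCompactSupport psiR :=
  HasCompactSupport.intro (U_compact 3) fun _ hx => psiR_neg hx

def FR (n : ℤ) (z : Fin 6) (l x : GG) : ℝ := psiR (au n z x / l)

lemma FR_cont (n : ℤ) (z : Fin 6) (l : GG) : Continuous (FR n z l) :=
  psiR_cont.comp ((au n z).toHomeomorph.trans (Homeomorph.divRight l)).continuous

lemma FR_cpt (n : ℤ) (z : Fin 6) (l : GG) : HasCompactSupport (FR n z l) :=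
  psiR_cpt.comp_homeomorph ((au n z).toHomeomorph.trans (Homeomorph.divRight l))

/-- the translations used with the `z`-th automorphism -/
def Lz (z : Fin 6) : Set GG := {l | (∀ k < 0, l k = 1) ∧ l 0 = l0 z ∧ l 1 = l1 z ∧ l 2 = l2 z}

def tail (n : ℤ) (l x : GG) : Prop := ∀ k : ℤ, 3 ≤ k → x (k + (2 * n + 1)) = l k

lemma tail_iff (n : ℤ) (z : Fin 6) (l x : GG) : (au n z x / l ∈ U 3) ↔ tail n l x := by
  constructor
  · intro h k hk
    have := h k hk
    rw [div_co, au_co, if_neg (by omega), if_neg (by omega), div_eq_one] at this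
    exact this
  · intro h k hk
    rw [div_co, au_co, if_neg (by omega), if_neg (by omega), div_eq_one]
    exact h k hk

lemma FR_neg {n : ℤ} {z : Fin 6} {l x : GG} (h : ¬ tail n l x) : FR n z l x = 0 :=
  psiR_neg (mt (tail_iff n z l x).1 h)

lemma FR_pos {n : ℤ} {z : Fin 6} {l x : GG} (hl : l ∈ Lz z) (h : tail n l x) : FR n z l x =
      cst * (Gz z (x (2 * n + 1)) (x (2 * n + 2)) (x (2 * n + 3)) : ℤ) := by
  obtain ⟨-, h0, h1, h2⟩ := hl
  rw [FR, psiR_pos ((tail_iff n z l x).2 h)]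
  simp only [div_co, h0, h1, h2, Gz]
  simp only [au_co, if_true, if_false, one_ne_zero, OfNat.ofNat_ne_zero, OfNat.ofNat_ne_one]
  rw [show (2 : ℤ) + (2 * n + 1) = 2 * n + 3 by ring]

def blk (m : ℤ) (a b c : ℤˣ) : GG :=
  ⟨fun k => if k = m then a else if k = m + 1 then b else if k = m + 2 then c else 1, m + 3,
    fun k hk => by
      show (if k = m then a else if k = m + 1 then b else if k = m + 2 then c else 1) = 1
      rw [if_neg (by omega), if_neg (by omega), if_neg (by omega)]⟩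

lemma blk_co (m : ℤ) (a b c : ℤˣ) (k : ℤ) :
    blk m a b c k = if k = m then a else if k = m + 1 then b else if k = m + 2 then c else 1 := rfl

lemma blk_co0 (m : ℤ) (a b c : ℤˣ) : blk m a b c m = a := by simp [blk_co]
lemma blk_co1 (m : ℤ) (a b c : ℤˣ) : blk m a b c (m + 1) = b := by simp [blk_co]
lemma blk_co2 (m : ℤ) (a b c : ℤˣ) : blk m a b c (m + 2) = c := by simp [blk_co]
lemma blk_co3 (m : ℤ) (a b c : ℤˣ) (k : ℤ) (hk : m + 3 ≤ k) : blk m a b c k = 1 := by
  rw [blk_co, if_neg (by omega), if_neg (by omega), if_neg (by omega)]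

lemma tail_blk (n : ℤ) (l x : GG) (a b c : ℤˣ) :
    tail n l (x * blk (2 * n + 1) a b c) ↔ tail n l x := by
  refine forall_congr' fun k => forall_congr' fun hk => ?_
  rw [mul_co, blk_co3 _ _ _ _ _ (by omega), mul_one]

lemma FR_blk {n : ℤ} {z : Fin 6} {l x : GG} (hl : l ∈ Lz z) (h : tail n l x) (a b c : ℤˣ) :
    FR n z l (x * blk (2 * n + 1) a b c) =
      cst * (Gz z (x (2 * n + 1) * a) (x (2 * n + 2) * b) (x (2 * n + 3) * c) : ℤ) := by
  rw [FR_pos hl ((tail_blk n l x a b c).2 h)]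
  simp only [mul_co]
  rw [blk_co0, show 2 * n + 2 = (2 * n + 1) + 1 by ring, blk_co1,
    show 2 * n + 3 = (2 * n + 1) + 2 by ring, blk_co2]

lemma FR_congr (n : ℤ) (z : Fin 6) (l : GG) (hl : l ∈ Lz z) (x y : GG)
    (h : ∀ k, 2 * n + 1 ≤ k → x k = y k) : FR n z l x = FR n z l y := by
  have h1 : tail n l x ↔ tail n l y := by
    refine forall_congr' fun k => forall_congr' fun hk => ?_
    rw [h _ (by omega)]
  by_cases hx : tail n l x
  · rw [FR_pos hl hx, FR_pos hl (h1.1 hx), h _ le_rfl, h (2 * n + 2) (by omega),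
      h (2 * n + 3) (by omega)]
  · rw [FR_neg hx, FR_neg (mt h1.2 hx)]

lemma avg0 {ι : Type*} [Fintype ι] [Nonempty ι] (h : GG → ℝ) (hi : Integrable h (haar : Measure GG))
    (v : ι → GG) (H : ∀ x, ∑ i, h (x * v i) = 0) : ∫ x, h x ∂(haar : Measure GG) = 0 := by
  have h1 : ∑ i : ι, ∫ x, h (x * v i) ∂(haar : Measure GG) = 0 := by
    rw [← integral_finsetSum _ fun i _ => hi.comp_mul_right (v i)]
    simp [H]
  simp only [integral_mul_right_eq_self (μ := (haar : Measure GG)) h] at h1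
  rw [Finset.sum_const, smul_eq_zero] at h1
  rcases h1 with h1 | h1
  · simp at h1
  · exact h1

lemma FR_int (n : ℤ) (z : Fin 6) (l : GG) (n' : ℤ) (z' : Fin 6) (l' : GG) :
    Integrable (fun x => FR n z l x * FR n' z' l' x) (haar : Measure GG) :=
  ((FR_cont n z l).mul (FR_cont n' z' l')).integrable_of_hasCompactSupport
    ((FR_cpt n z l).mul_right)

lemma orth_lt (n : ℤ) (z : Fin 6) (l : GG) (hl : l ∈ Lz z) (n' : ℤ) (z' : Fin 6) (l' : GG)
    (hl' : l' ∈ Lz z') (hn : n < n') : ∫ x, FR n z l x * FR n' z' l' x ∂(haar : Measure GG) = 0 := by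
  refine avg0 _ (FR_int _ _ _ _ _ _) (fun v : ℤˣ × ℤˣ => blk (2 * n + 1) v.1 v.2 1) fun x => ?_
  have h1 : ∀ v : ℤˣ × ℤˣ, FR n' z' l' (x * blk (2 * n + 1) v.1 v.2 1) = FR n' z' l' x := by
    intro v
    refine FR_congr n' z' l' hl' _ _ fun k hk => ?_
    rw [mul_co, blk_co]
    split_ifs <;> first | omega | simp
  simp only [h1]
  rw [← Finset.sum_mul]
  convert zero_mul _
  by_cases h2 : tail n l x
  · simp only [FR_blk hl h2]
    rw [← Finset.mul_sum, Fintype.sum_prod_type]
    convert mul_zero _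
    have := O2 z (x (2 * n + 1)) (x (2 * n + 2)) (x (2 * n + 3) * 1)
    exact_mod_cast this
  · have h3 : ∀ v : ℤˣ × ℤˣ, FR n z l (x * blk (2 * n + 1) v.1 v.2 1) = 0 := fun v =>
      FR_neg (mt (tail_blk n l x _ _ _).1 h2)
    simp only [h3, Finset.sum_const_zero]

lemma orth_eq (n : ℤ) (z : Fin 6) (l : GG) (hl : l ∈ Lz z) (z' : Fin 6) (l' : GG)
    (hl' : l' ∈ Lz z') (hn : ¬ (z = z' ∧ l = l')) :
    ∫ x, FR n z l x * FR n z' l' x ∂(haar : Measure GG) = 0 := by
  by_cases hz : z = z'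
  · subst hz
    have hne : l ≠ l' := fun h => hn ⟨rfl, h⟩
    have h0 : ∃ k, 3 ≤ k ∧ l k ≠ l' k := by
      by_contra hcon
      push Not at hcon
      apply hne
      refine GG.ext' fun k => ?_
      obtain ⟨a1, a2, a3, a4⟩ := hl
      obtain ⟨b1, b2, b3, b4⟩ := hl'
      rcases lt_or_ge k 0 with h | h
      · rw [a1 k h, b1 k h]
      rcases eq_or_lt_of_le h with rfl | h
      · rw [a2, b2]
      rcases eq_or_lt_of_le (show 1 ≤ k by omega) with rfl | h
      · rw [a3, b3]
      rcases eq_or_lt_of_le (show 2 ≤ k by omega) with rfl | h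
      · rw [a4, b4]
      exact hcon k (by omega)
    obtain ⟨k, hk, hne2⟩ := h0
    have h1 : ∀ x, FR n z l x * FR n z l' x = 0 := by
      intro x
      by_cases h1 : tail n l x
      · have h2 : ¬ tail n l' x := fun h2 => hne2 ((h1 k hk).symm.trans (h2 k hk))
        rw [FR_neg h2, mul_zero]
      · rw [FR_neg h1, zero_mul]
    simp only [h1, integral_zero]
  · refine avg0 _ (FR_int _ _ _ _ _ _)
      (fun v : ℤˣ × ℤˣ × ℤˣ => blk (2 * n + 1) v.1 v.2.1 v.2.2) fun x => ?_
    by_cases h1 : tail n l x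
    · by_cases h2 : tail n l' x
      · have h3 : ∀ v : ℤˣ × ℤˣ × ℤˣ, FR n z l (x * blk (2 * n + 1) v.1 v.2.1 v.2.2) *
            FR n z' l' (x * blk (2 * n + 1) v.1 v.2.1 v.2.2) =
            (cst * cst) * ((Gz z (x (2 * n + 1) * v.1) (x (2 * n + 2) * v.2.1) (x (2 * n + 3) * v.2.2) *
            Gz z' (x (2 * n + 1) * v.1) (x (2 * n + 2) * v.2.1) (x (2 * n + 3) * v.2.2) : ℤ) : ℝ) := by
          intro v
          rw [FR_blk hl h1, FR_blk hl' h2]
          push_cast; ring
        simp only [h3]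
        rw [← Finset.mul_sum, Fintype.sum_prod_type]
        simp only [Fintype.sum_prod_type]
        convert mul_zero _
        have := O1' z z' hz (x (2 * n + 1)) (x (2 * n + 2)) (x (2 * n + 3))
        exact_mod_cast this
      · have h3 : ∀ v : ℤˣ × ℤˣ × ℤˣ, FR n z' l' (x * blk (2 * n + 1) v.1 v.2.1 v.2.2) = 0 := fun v =>
          FR_neg (mt (tail_blk n l' x _ _ _).1 h2)
        simp only [h3, mul_zero, Finset.sum_const_zero]
    · have h3 : ∀ v : ℤˣ × ℤˣ × ℤˣ, FR n z l (x * blk (2 * n + 1) v.1 v.2.1 v.2.2) = 0 := fun v =>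
        FR_neg (mt (tail_blk n l x _ _ _).1 h1)
      simp only [h3, zero_mul, Finset.sum_const_zero]

lemma orthR (n : ℤ) (z : Fin 6) (l : GG) (hl : l ∈ Lz z) (n' : ℤ) (z' : Fin 6) (l' : GG)
    (hl' : l' ∈ Lz z') (hn : ¬ (n = n' ∧ z = z' ∧ l = l')) :
    ∫ x, FR n z l x * FR n' z' l' x ∂(haar : Measure GG) = 0 := by
  rcases lt_trichotomy n n' with h | h | h
  · exact orth_lt n z l hl n' z' l' hl' h
  · subst h
    exact orth_eq n z l hl z' l' hl' fun h => hn ⟨rfl, h⟩
  · have := orth_lt n' z' l' hl' n z l hl h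
    rw [← this]
    exact integral_congr_ae (Filter.Eventually.of_forall fun x => mul_comm _ _)

/-! ### Completeness -/

/-- the coset of `c` modulo `U m` -/
def CC (m : ℤ) (c : GG) : Set GG := {x | ∀ k, m ≤ k → x k = c k}

lemma CC_eq (m : ℤ) (c : GG) : CC m c = c • (U m : Set GG) := by
  ext x
  rw [mem_smul_set_iff_inv_smul_mem]
  constructor
  · intro h k hk
    rw [smul_eq_mul, mul_co, inv_co, h k hk, inv_mul_cancel]
  · intro h k hk
    have := h k hk
    rw [smul_eq_mul, mul_co, inv_co, inv_mul_eq_one] at this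
    exact this.symm

lemma CC_open (m : ℤ) (c : GG) : IsOpen (CC m c) := by rw [CC_eq]; exact (U_open m).smul c

lemma CC_meas (m : ℤ) (c : GG) : MeasurableSet (CC m c) := (CC_open m c).measurableSet

lemma mu_CC (m : ℤ) (c : GG) : (haar : Measure GG) (CC m c) = (haar : Measure GG) (U m) := by
  rw [CC_eq, measure_smul]

lemma mu_CC_ne (m : ℤ) (c : GG) : (haar : Measure GG) (CC m c) ≠ ⊤ := by
  rw [mu_CC]; exact (mu_U_fin m).ne

lemma CC_inter {m m' : ℤ} {c c' : GG} (h : (CC m c ∩ CC m' c').Nonempty) :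
    ∃ x, CC m c ∩ CC m' c' = CC (min m m') x := by
  obtain ⟨x, hx, hx'⟩ := h
  refine ⟨x, ?_⟩
  ext y
  constructor
  · rintro ⟨h1, h2⟩ k hk
    rcases min_le_iff.1 hk with h | h
    · rw [h1 k h, hx k h]
    · rw [h2 k h, hx' k h]
  · intro h
    exact ⟨fun k hk => by rw [h k (le_trans (min_le_left _ _) hk), hx k hk],
      fun k hk => by rw [h k (le_trans (min_le_right _ _) hk), hx' k hk]⟩

/-- the translation attached to `z` and the coset of `c` -/
def lam (n : ℤ) (z : Fin 6) (c : GG) : GG :=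
  ⟨fun k => if k < 0 then 1 else if k = 0 then l0 z else if k = 1 then l1 z else
    if k = 2 then l2 z else c (k + (2 * n + 1)), by
    obtain ⟨N, hN⟩ := ev c
    refine ⟨max 3 (N - (2 * n + 1)), fun k hk => ?_⟩
    show (if k < 0 then 1 else if k = 0 then l0 z else if k = 1 then l1 z else
      if k = 2 then l2 z else c (k + (2 * n + 1))) = 1
    rw [if_neg (by omega), if_neg (by omega), if_neg (by omega), if_neg (by omega)]
    exact hN _ (by omega)⟩

lemma lam_co (n : ℤ) (z : Fin 6) (c : GG) (k : ℤ) : lam n z c k =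
    if k < 0 then 1 else if k = 0 then l0 z else if k = 1 then l1 z else
    if k = 2 then l2 z else c (k + (2 * n + 1)) := rfl

lemma lam_mem (n : ℤ) (z : Fin 6) (c : GG) : lam n z c ∈ Lz z := by
  refine ⟨fun k hk => ?_, ?_, ?_, ?_⟩
  · rw [lam_co, if_pos hk]
  · rw [lam_co]; rfl
  · rw [lam_co]; rfl
  · rw [lam_co]; rfl

lemma tail_lam (n : ℤ) (z : Fin 6) (c x : GG) :
    tail n (lam n z c) x ↔ ∀ k : ℤ, 3 ≤ k → x (k + (2 * n + 1)) = c (k + (2 * n + 1)) := by
  refine forall_congr' fun k => forall_congr' fun hk => ?_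
  rw [lam_co, if_neg (by omega), if_neg (by omega), if_neg (by omega), if_neg (by omega)]

lemma key_id (n : ℤ) (c x : GG) :
    ∑ z : Fin 6, ((Gz z (c (2 * n + 1)) (c (2 * n + 2)) (c (2 * n + 3)) : ℤ) : ℝ) *
      FR n z (lam n z c) x =
    cst * ((CC (2 * n + 1) c).indicator (fun _ => (40 : ℝ)) x -
      (CC (2 * (n + 1) + 1) c).indicator (fun _ => (10 : ℝ)) x) := by
  by_cases ht : ∀ k : ℤ, 3 ≤ k → x (k + (2 * n + 1)) = c (k + (2 * n + 1))
  · have h1 : ∀ z : Fin 6, FR n z (lam n z c) x =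
        cst * (Gz z (x (2 * n + 1)) (x (2 * n + 2)) (x (2 * n + 3)) : ℤ) := fun z =>
      FR_pos (lam_mem n z c) ((tail_lam n z c x).2 ht)
    have h2 : ∑ z : Fin 6, ((Gz z (c (2 * n + 1)) (c (2 * n + 2)) (c (2 * n + 3)) : ℤ) : ℝ) *
        FR n z (lam n z c) x = cst * ((∑ z : Fin 6, Gz z (c (2 * n + 1)) (c (2 * n + 2)) (c (2 * n + 3)) *
        Gz z (x (2 * n + 1)) (x (2 * n + 2)) (x (2 * n + 3)) : ℤ) : ℝ) := by
      push_cast
      rw [Finset.mul_sum]
      refine Finset.sum_congr rfl fun z _ => ?_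
      rw [h1 z]; ring
    rw [h2, O3]
    congr 1
    have h4 : x ∈ CC (2 * (n + 1) + 1) c ↔ c (2 * n + 3) = x (2 * n + 3) := by
      constructor
      · intro h
        exact (h _ (by omega)).symm
      · intro h k hk
        rcases eq_or_lt_of_le hk with rfl | hk
        · rw [show 2 * (n + 1) + 1 = 2 * n + 3 by ring, h]
        · have := ht (k - (2 * n + 1)) (by omega)
          rwa [sub_add_cancel] at this
    have h3 : x ∈ CC (2 * n + 1) c ↔ (c (2 * n + 1) = x (2 * n + 1) ∧ c (2 * n + 2) = x (2 * n + 2) ∧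
        c (2 * n + 3) = x (2 * n + 3)) := by
      constructor
      · intro h
        exact ⟨(h _ (by omega)).symm, (h _ (by omega)).symm, (h _ (by omega)).symm⟩
      · rintro ⟨e1, e2, e3⟩ k hk
        rcases eq_or_lt_of_le hk with rfl | hk
        · exact e1.symm
        rcases eq_or_lt_of_le (show 2 * n + 2 ≤ k by omega) with rfl | hk
        · exact e2.symm
        exact h4.2 e3 k (by omega)
    by_cases hc : c (2 * n + 3) = x (2 * n + 3)
    · by_cases hab : c (2 * n + 1) = x (2 * n + 1) ∧ c (2 * n + 2) = x (2 * n + 2) ∧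
        c (2 * n + 3) = x (2 * n + 3)
      · rw [if_pos hab, if_pos hc, indicator_of_mem (h3.2 hab), indicator_of_mem (h4.2 hc)]
        norm_num
      · rw [if_neg hab, if_pos hc, indicator_of_notMem (mt h3.1 hab), indicator_of_mem (h4.2 hc)]
        norm_num
    · have hab : ¬ (c (2 * n + 1) = x (2 * n + 1) ∧ c (2 * n + 2) = x (2 * n + 2) ∧
        c (2 * n + 3) = x (2 * n + 3)) := fun h => hc h.2.2
      rw [if_neg hab, if_neg hc, indicator_of_notMem (mt h3.1 hab), indicator_of_notMem (mt h4.1 hc)]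
      norm_num
  · have h1 : ∀ z : Fin 6, FR n z (lam n z c) x = 0 := fun z =>
      FR_neg (mt (tail_lam n z c x).1 ht)
    have h3 : x ∉ CC (2 * n + 1) c := fun h => ht fun k hk => h _ (by omega)
    have h4 : x ∉ CC (2 * (n + 1) + 1) c := fun h => ht fun k hk => h _ (by omega)
    rw [indicator_of_notMem h3, indicator_of_notMem h4]
    simp [h1]

lemma Lp_intOn (f : Lp ℂ 2 (haar : Measure GG)) (m : ℤ) (c : GG) :
    IntegrableOn f (CC m c) (haar : Measure GG) := by
  have h1 := (Lp.memLp f).restrict (CC m c)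
  have : IsFiniteMeasure ((haar : Measure GG).restrict (CC m c)) :=
    ⟨by rw [Measure.restrict_apply_univ]; exact (mu_CC_ne m c).lt_top⟩
  exact h1.integrable (by norm_num)

lemma step (f : Lp ℂ 2 (haar : Measure GG))
    (hf : ∀ n z l, l ∈ Lz z → ∫ x, ((FR n z l x : ℝ) : ℂ) * f x ∂(haar : Measure GG) = 0)
    (n : ℤ) (c : GG) : ∫ x in CC (2 * n + 1) c, f x ∂(haar : Measure GG) =
      (1 / 4 : ℂ) * ∫ x in CC (2 * (n + 1) + 1) c, f x ∂(haar : Measure GG) := by
  have hint : ∀ z : Fin 6, Integrable (fun x => ((FR n z (lam n z c) x : ℝ) : ℂ) * f x)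
      (haar : Measure GG) := by
    intro z
    have h1 : MemLp (fun x => ((FR n z (lam n z c) x : ℝ) : ℂ)) 2 (haar : Measure GG) :=
      (Complex.continuous_ofReal.comp (FR_cont n z _)).memLp_of_hasCompactSupport
        ((FR_cpt n z _).comp_left Complex.ofReal_zero)
    exact h1.integrable_mul (Lp.memLp f)
  have h0 : ∫ x, ∑ z : Fin 6, ((Gz z (c (2 * n + 1)) (c (2 * n + 2)) (c (2 * n + 3)) : ℤ) : ℂ) *
      (((FR n z (lam n z c) x : ℝ) : ℂ) * f x) ∂(haar : Measure GG) = 0 := by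
    rw [integral_finsetSum _ fun z _ => (hint z).const_mul _]
    refine Finset.sum_eq_zero fun z _ => ?_
    rw [integral_const_mul, hf n z _ (lam_mem n z c), mul_zero]
  have h1 : ∀ x, ∑ z : Fin 6, ((Gz z (c (2 * n + 1)) (c (2 * n + 2)) (c (2 * n + 3)) : ℤ) : ℂ) *
      (((FR n z (lam n z c) x : ℝ) : ℂ) * f x) =
      (cst : ℂ) * ((CC (2 * n + 1) c).indicator (fun x => 40 * f x) x -
      (CC (2 * (n + 1) + 1) c).indicator (fun x => 10 * f x) x) := by
    intro x
    have h2 := congrArg (fun r : ℝ => (r : ℂ) * f x) (key_id n c x)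
    simp only [Complex.ofReal_sum, Finset.sum_mul] at h2
    calc _ = ∑ z : Fin 6, ((((Gz z (c (2 * n + 1)) (c (2 * n + 2)) (c (2 * n + 3)) : ℤ) : ℝ) *
          FR n z (lam n z c) x : ℝ) : ℂ) * f x := by
          refine Finset.sum_congr rfl fun z _ => ?_
          push_cast; ring
      _ = _ := h2
      _ = _ := by
          by_cases ha : x ∈ CC (2 * n + 1) c <;> by_cases hb : x ∈ CC (2 * (n + 1) + 1) c <;>
          simp only [indicator, ha, hb, if_true, if_false] <;> push_cast <;> ring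
  simp only [h1] at h0
  rw [integral_const_mul, integral_sub (IntegrableOn.integrable_indicator (Integrable.const_mul (Lp_intOn f _ c) 40) (CC_meas _ c))
    (IntegrableOn.integrable_indicator (Integrable.const_mul (Lp_intOn f _ c) 10) (CC_meas _ c)),
    integral_indicator (CC_meas _ c), integral_indicator (CC_meas _ c), integral_const_mul,
    integral_const_mul] at h0
  have hc : (cst : ℂ) ≠ 0 := by exact_mod_cast cst_pos.ne'
  have h5 := (mul_eq_zero.1 h0).resolve_left hc
  linear_combination (1 / 40 : ℂ) * h5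

lemma bound (f : Lp ℂ 2 (haar : Measure GG)) (m : ℤ) (c : GG) :
    ‖∫ x in CC m c, f x ∂(haar : Measure GG)‖ ≤ Real.sqrt ((haar : Measure GG).real (U m)) * ‖f‖ := by
  have h1 := L2.inner_indicatorConstLp_one (𝕜 := ℂ) (CC_meas m c) (mu_CC_ne m c) f
  rw [← h1]
  refine (norm_inner_le_norm _ _).trans ?_
  rw [norm_indicatorConstLp (by norm_num) (by norm_num)]
  have h2 : (haar : Measure GG).real (CC m c) = (haar : Measure GG).real (U m) := by
    rw [Measure.real, mu_CC, Measure.real]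
  rw [h2, norm_one, one_mul, Real.sqrt_eq_rpow]
  norm_num

lemma CC_int_zero (f : Lp ℂ 2 (haar : Measure GG))
    (hf : ∀ n z l, l ∈ Lz z → ∫ x, ((FR n z l x : ℝ) : ℂ) * f x ∂(haar : Measure GG) = 0)
    (n : ℤ) (c : GG) : ∫ x in CC (2 * n + 1) c, f x ∂(haar : Measure GG) = 0 := by
  have h1 : ∀ j : ℕ, ∫ x in CC (2 * n + 1) c, f x ∂(haar : Measure GG) =
      (1 / 4 : ℂ) ^ j * ∫ x in CC (2 * (n + j) + 1) c, f x ∂(haar : Measure GG) := by
    intro j
    induction j with
    | zero => simp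
    | succ j ih =>
      rw [ih, step f hf (n + j) c, pow_succ, mul_assoc]
      push_cast
      rw [add_assoc n]
  have h2 : ∀ j : ℕ, ‖∫ x in CC (2 * n + 1) c, f x ∂(haar : Measure GG)‖ ≤
      (1 / 2 : ℝ) ^ j * (Real.sqrt ((haar : Measure GG).real (U (2 * n + 1))) * ‖f‖) := by
    intro j
    rw [h1 j, norm_mul, norm_pow]
    have h3 := bound f (2 * (n + j) + 1) c
    have h4 : (haar : Measure GG).real (U (2 * (n + j) + 1)) =
        (2 ^ j) ^ 2 * (haar : Measure GG).real (U (2 * n + 1)) := by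
      rw [mur_U_zpow, mur_U_zpow (2 * n + 1), show 2 * (n + j) + 1 = (2 * n + 1) + (2 * j : ℕ) by push_cast; ring,
        zpow_add₀ (by norm_num), zpow_natCast]
      ring
    rw [h4, Real.sqrt_mul (by positivity), Real.sqrt_sq (by positivity)] at h3
    calc _ ≤ ‖(1 / 4 : ℂ)‖ ^ j * (2 ^ j * Real.sqrt ((haar : Measure GG).real (U (2 * n + 1))) * ‖f‖) := by
          gcongr
      _ = _ := by
          have : ‖(1 / 4 : ℂ)‖ = (1 / 2 : ℝ) * (1 / 2) := by norm_num
          rw [this, mul_pow]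
          have h5 : (1 / 2 : ℝ) ^ j * 2 ^ j = 1 := by rw [← mul_pow]; norm_num
          linear_combination ((1 / 2 : ℝ) ^ j * Real.sqrt ((haar : Measure GG).real (U (2 * n + 1))) * ‖f‖) * h5
  have h3 : Tendsto (fun j : ℕ => (1 / 2 : ℝ) ^ j * (Real.sqrt ((haar : Measure GG).real (U (2 * n + 1))) * ‖f‖))
      atTop (𝓝 (0 * (Real.sqrt ((haar : Measure GG).real (U (2 * n + 1))) * ‖f‖))) :=
    (tendsto_pow_atTop_nhds_zero_of_lt_one (by norm_num) (by norm_num)).mul_const _
  rw [zero_mul] at h3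
  have h4 := ge_of_tendsto' h3 h2
  exact norm_le_zero_iff.1 h4

def CS : Set (Set GG) := {s | ∃ (n : ℤ) (c : GG), s = CC (2 * n + 1) c}

lemma CS_basis : TopologicalSpace.IsTopologicalBasis CS := by
  refine TopologicalSpace.isTopologicalBasis_of_isOpen_of_nhds ?_ ?_
  · rintro s ⟨n, c, rfl⟩
    exact CC_open _ c
  · intro a u ha hu
    have h1 : (fun x => a * x) ⁻¹' u ∈ 𝓝 (1 : GG) := by
      refine (hu.preimage (continuous_const.mul continuous_id)).mem_nhds ?_
      show a * 1 ∈ u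
      rwa [mul_one]
    obtain ⟨m, hm⟩ := nhds_one_sub h1
    refine ⟨CC (2 * (m - |m| - 1) + 1) a, ⟨_, a, rfl⟩, fun k _ => rfl, ?_⟩
    intro x hx
    have h2 : a⁻¹ * x ∈ U m := by
      intro k hk
      rw [mul_co, inv_co, hx k (by cases abs_cases m <;> omega), inv_mul_cancel]
    have h3 := hm h2
    have h4 : a * (a⁻¹ * x) ∈ u := h3
    rwa [mul_inv_cancel_left] at h4

lemma complete (f : Lp ℂ 2 (haar : Measure GG))
    (hf : ∀ n z l, l ∈ Lz z → ∫ x, ((FR n z l x : ℝ) : ℂ) * f x ∂(haar : Measure GG) = 0) :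
    f = 0 := by
  have hz := CC_int_zero f hf
  have hW : ∀ N : ℤ, f =ᵐ[(haar : Measure GG).restrict (CC (2 * N + 1) 1)] 0 := by
    intro N
    have hi : Integrable f ((haar : Measure GG).restrict (CC (2 * N + 1) 1)) := Lp_intOn f _ _
    suffices key : ∀ s, MeasurableSet s →
        ∫ x in s, f x ∂((haar : Measure GG).restrict (CC (2 * N + 1) 1)) = 0 from
      hi.ae_eq_zero_of_forall_setIntegral_eq_zero fun s hs _ => key s hs
    intro s hs
    have hgen : (inferInstance : MeasurableSpace GG) = MeasurableSpace.generateFrom CS :=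
      CS_basis.borel_eq_generateFrom
    have hpi : IsPiSystem CS := by
      rintro s ⟨n, c, rfl⟩ t ⟨n', c', rfl⟩ hne
      obtain ⟨x, hx⟩ := CC_inter hne
      refine ⟨min n n', x, ?_⟩
      rw [hx]
      congr 1
      rcases le_total n n' with h | h
      · rw [min_eq_left h, min_eq_left (by omega)]
      · rw [min_eq_right h, min_eq_right (by omega)]
    induction s, hs using MeasurableSpace.induction_on_inter hgen hpi with
    | empty => simp
    | basic t ht =>
      obtain ⟨n, c, rfl⟩ := ht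
      rw [Measure.restrict_restrict (CC_meas _ c)]
      rcases (CC (2 * n + 1) c ∩ CC (2 * N + 1) 1).eq_empty_or_nonempty with he | hne
      · rw [he]; simp
      · obtain ⟨x, hx⟩ := CC_inter hne
        rw [hx]
        rcases le_total n N with h | h
        · rw [min_eq_left (by omega)]; exact hz n x
        · rw [min_eq_right (by omega)]; exact hz N x
    | compl t ht ih =>
      have h1 := integral_add_compl ht hi
      rw [ih, zero_add] at h1
      rw [h1]
      exact hz N 1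
    | iUnion F hd hm ih =>
      rw [integral_iUnion hm hd hi.integrableOn]
      simp [ih]
  have h2 : f =ᵐ[(haar : Measure GG)] 0 := by
    have h3 : (⋃ N : ℤ, CC (2 * N + 1) 1) = (univ : Set GG) := by
      rw [Set.eq_univ_iff_forall]
      intro x
      obtain ⟨N, hN⟩ := ev x
      refine Set.mem_iUnion.2 ⟨|N|, fun k hk => ?_⟩
      rw [one_co]
      exact hN k (by cases abs_cases N <;> omega)
    have h4 := (ae_restrict_iUnion_iff (μ := (haar : Measure GG)) (fun N : ℤ => CC (2 * N + 1) 1)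
      (fun x => f x = (0 : GG → ℂ) x)).2 hW
    rwa [h3, Measure.restrict_univ] at h4
  exact (Lp.eq_zero_iff_ae_eq_zero).2 h2

/-! ### The orthogonal basis -/

/-- the index set of the wavelet system -/
def BB : Set (GG × (GG ≃ₜ* GG)) := {b | ∃ (n : ℤ) (z : Fin 6), b.1 ∈ Lz z ∧ b.2 = au n z}

lemma dil_eq (n : ℤ) (z : Fin 6) (l x : GG) : dil psi l (au n z) x =
    ((Real.sqrt (mulEquivHaarChar (au n z)) : ℝ) : ℂ) * ((FR n z l x : ℝ) : ℂ) := rfl

lemma rt_pos (n : ℤ) (z : Fin 6) : 0 < Real.sqrt (mulEquivHaarChar (au n z)) :=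
  Real.sqrt_pos.2 (by exact_mod_cast mulEquivHaarChar_pos (au n z))

lemma dil_cont (n : ℤ) (z : Fin 6) (l : GG) : Continuous (dil psi l (au n z)) :=
  continuous_const.mul (Complex.continuous_ofReal.comp (FR_cont n z l))

lemma dil_memLp (n : ℤ) (z : Fin 6) (l : GG) : MemLp (dil psi l (au n z)) 2 (haar : Measure GG) := by
  refine (dil_cont n z l).memLp_of_hasCompactSupport ?_
  exact ((FR_cpt n z l).comp_left Complex.ofReal_zero).mul_left

lemma inner_toLp_left {F : GG → ℂ} (hF : MemLp F 2 (haar : Measure GG))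
    (f : Lp ℂ 2 (haar : Measure GG)) :
    inner ℂ (hF.toLp F) f = ∫ x, conj (F x) * f x ∂(haar : Measure GG) := by
  rw [L2.inner_def]
  refine integral_congr_ae ?_
  filter_upwards [hF.coeFn_toLp] with x hx
  rw [hx, RCLike.inner_apply, mul_comm]

lemma isOrthBasis_psi : IsOrthBasis (fun b : BB => dil psi b.1.1 b.1.2) := by
  have hm : ∀ b : BB, MemLp (dil psi b.1.1 b.1.2) 2 (haar : Measure GG) := by
    rintro ⟨⟨l, a⟩, n, z, hl, ha⟩
    simp only at ha ⊢
    subst ha
    exact dil_memLp n z l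
  refine ⟨hm, ?_, ?_, ?_⟩
  · rintro ⟨⟨l, a⟩, n, z, hl, ha⟩ h0
    simp only at ha
    subst ha
    have h1 : dil psi l (au n z) =ᵐ[(haar : Measure GG)] fun _ => (0 : ℂ) := by
      have h2 := (hm ⟨⟨l, au n z⟩, n, z, hl, rfl⟩).coeFn_toLp
      have h3 := (Lp.eq_zero_iff_ae_eq_zero).1 h0
      exact h2.symm.trans h3
    have h4 := (Continuous.ae_eq_iff_eq _ (dil_cont n z l) continuous_const).1 h1
    have h5 := congrFun h4 ((au n z).symm l)
    have h6 : FR n z l ((au n z).symm l) = cst * 5 := by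
      have h7 : au n z ((au n z).symm l) / l = 1 := by
        rw [ContinuousMulEquiv.apply_symm_apply, div_self']
      rw [FR, h7, psiR_pos (U 3).one_mem]
      have : gg ((1 : GG) 0) ((1 : GG) 1) ((1 : GG) 2) = 5 := by
        simp only [one_co]; decide
      rw [this]; norm_num
    rw [dil_eq, h6] at h5
    have h8 := rt_pos n z
    have h9 := cst_pos
    have h10 : Real.sqrt (mulEquivHaarChar (au n z)) * (cst * 5) = 0 := by exact_mod_cast h5
    have h11 : 0 < Real.sqrt (mulEquivHaarChar (au n z)) * (cst * 5) := by positivity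
    exact h11.ne' h10
  · rintro ⟨⟨l, a⟩, n, z, hl, ha⟩ ⟨⟨l', a'⟩, n', z', hl', ha'⟩ hne
    simp only at ha ha'
    subst ha ha'
    have h1 : ¬ (n = n' ∧ z = z' ∧ l = l') := by
      rintro ⟨rfl, rfl, rfl⟩
      exact hne rfl
    show inner ℂ _ _ = (0 : ℂ)
    rw [inner_toLp_left]
    have h2 := (hm ⟨⟨l', au n' z'⟩, n', z', hl', rfl⟩).coeFn_toLp
    rw [integral_congr_ae (g := fun x => (((Real.sqrt (mulEquivHaarChar (au n z)) *
      Real.sqrt (mulEquivHaarChar (au n' z'))) * (FR n z l x * FR n' z' l' x) : ℝ) : ℂ))]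
    · have h3 : ∫ x, (((Real.sqrt (mulEquivHaarChar (au n z)) *
          Real.sqrt (mulEquivHaarChar (au n' z'))) * (FR n z l x * FR n' z' l' x) : ℝ) : ℂ)
          ∂(haar : Measure GG) = ((∫ x, (Real.sqrt (mulEquivHaarChar (au n z)) *
          Real.sqrt (mulEquivHaarChar (au n' z'))) * (FR n z l x * FR n' z' l' x)
          ∂(haar : Measure GG) : ℝ) : ℂ) := integral_ofReal
      rw [h3, integral_const_mul, orthR n z l hl n' z' l' hl' h1]
      simp
    · filter_upwards [h2] with x hx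
      rw [hx]
      simp only [dil_eq, map_mul, Complex.conj_ofReal]
      push_cast
      ring
  · rw [Submodule.topologicalClosure_eq_top_iff, Submodule.eq_bot_iff]
    intro f hf
    refine complete f fun n z l hl => ?_
    have h1 := (Submodule.mem_orthogonal _ _).1 hf _ (Submodule.subset_span
      ⟨⟨⟨l, au n z⟩, n, z, hl, rfl⟩, rfl⟩)
    rw [inner_toLp_left] at h1
    simp only [dil_eq, map_mul, Complex.conj_ofReal, mul_assoc] at h1
    rw [integral_const_mul] at h1
    have h2 : ((Real.sqrt (mulEquivHaarChar (au n z)) : ℝ) : ℂ) ≠ 0 := by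
      exact_mod_cast (rt_pos n z).ne'
    exact (mul_eq_zero.1 h1).resolve_left h2

lemma BB_countable : BB.Countable := by
  have h1 : BB ⊆ Set.range fun p : ℤ × Fin 6 × D => (eG.symm (p.2.2, 1), au p.1 p.2.1) := by
    rintro ⟨l, a⟩ ⟨n, z, hl, ha⟩
    refine ⟨(n, z, (eG l).1), ?_⟩
    have h2 : ((eG l).1, (1 : ℕ → ℤˣ)) = eG l := by
      refine Prod.ext rfl ?_
      funext j
      exact (hl.1 (Int.negSucc j) (Int.negSucc_lt_zero j)).symm
    simp only at ha
    rw [ha]
    simp only [h2, MulEquiv.symm_apply_apply]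
  exact (Set.countable_range _).mono h1

lemma BB_one : ((1 : GG), au 0 0) ∈ BB := ⟨0, 0, ⟨fun _ _ => rfl, rfl, rfl, rfl⟩, rfl⟩

/-! ### The Fourier transform of the wavelet -/

def sg : ℤˣ →* Circle where
  toFun a := if a = 1 then 1 else -1
  map_one' := by simp
  map_mul' a b := by
    rcases Int.units_eq_one_or a with rfl | rfl <;> rcases Int.units_eq_one_or b with rfl | rfl <;>
    simp

lemma sg_one : sg 1 = 1 := map_one _
lemma sg_neg : sg (-1) = -1 := rfl

lemma sg_coe (a : ℤˣ) : ((sg a : Circle) : ℂ) = ((a : ℤ) : ℂ) := by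
  rcases Int.units_eq_one_or a with rfl | rfl
  · simp
  · rw [sg_neg]; simp

lemma sg_inj {a b : ℤˣ} (h : sg a = sg b) : a = b := by
  have h1 : ((sg a : Circle) : ℂ) = ((sg b : Circle) : ℂ) := by rw [h]
  rw [sg_coe, sg_coe] at h1
  exact Units.ext (by exact_mod_cast h1)

lemma sq_GG (x : GG) : x * x = 1 := by
  ext k
  rw [mul_co, one_co, Int.units_mul_self]

lemma chi_val (χ : PontryaginDual GG) (x : GG) : ∃ s : ℤˣ, χ x = sg s := by
  have h1 : χ x * χ x = 1 := by rw [← map_mul, sq_GG, map_one]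
  have h2 : ((χ x : Circle) : ℂ) * ((χ x : Circle) : ℂ) = 1 := by
    rw [← Circle.coe_mul, h1, Circle.coe_one]
  rcases mul_self_eq_one_iff.1 h2 with h | h
  · exact ⟨1, by rw [sg_one]; exact Circle.ext (by rw [h]; simp)⟩
  · exact ⟨-1, by rw [sg_neg]; exact Circle.ext (by rw [h]; simp)⟩

/-- `s` if `a = -1` and `1` if `a = 1` -/
def pw (s a : ℤˣ) : ℤˣ := if a = 1 then 1 else s

lemma chi_del (χ : PontryaginDual GG) (k : ℤ) (s : ℤˣ) (h : χ (del k (-1)) = sg s) (a : ℤˣ) :
    χ (del k a) = sg (pw s a) := by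
  rcases Int.units_eq_one_or a with rfl | rfl
  · have : del k 1 = 1 := by
      ext j; rw [del_co]; simp
    rw [this, map_one, pw, if_pos rfl, sg_one]
  · rw [h, pw, if_neg (by decide)]

lemma blk_del (a b c : ℤˣ) : blk 0 a b c = del 0 a * del 1 b * del 2 c := by
  ext k
  rw [mul_co, mul_co, blk_co, del_co, del_co, del_co]
  simp only [zero_add]
  split_ifs with h1 h2 h3 <;> first | omega | simp

lemma chi_blk (χ : PontryaginDual GG) (s0 s1 s2 : ℤˣ) (h0 : χ (del 0 (-1)) = sg s0)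
    (h1 : χ (del 1 (-1)) = sg s1) (h2 : χ (del 2 (-1)) = sg s2) (a b c : ℤˣ) :
    χ (blk 0 a b c) = sg (pw s0 a * pw s1 b * pw s2 c) := by
  rw [blk_del, map_mul, map_mul, chi_del χ 0 s0 h0, chi_del χ 1 s1 h1, chi_del χ 2 s2 h2, map_mul,
    map_mul]

lemma pw_mul : ∀ s a b : ℤˣ, pw s (a * b) = pw s a * pw s b := by decide

/-- the sign patterns of the characters in the wavelet set -/
def PP (s0 s1 s2 : ℤˣ) : Prop := s1 ≠ 1 ∨ (s0 ≠ 1 ∧ s2 ≠ 1)

instance (s0 s1 s2 : ℤˣ) : Decidable (PP s0 s1 s2) := by unfold PP; infer_instance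

lemma FTsum : ∀ s0 s1 s2 : ℤˣ, ∑ a : ℤˣ, ∑ b : ℤˣ, ∑ c : ℤˣ,
    gg a b c * ((pw s0 a * pw s1 b * pw s2 c : ℤˣ) : ℤ) = if PP s0 s1 s2 then 8 else 0 := by decide

lemma PPsum : ∀ s0 s1 s2 : ℤˣ, ∑ a : ℤˣ, ∑ b : ℤˣ, ∑ c : ℤˣ,
    (if PP (s0 * a) (s1 * b) (s2 * c) then 1 else 0 : ℕ) = 5 := by decide

def YY : Set (PontryaginDual GG) := {χ | ∀ u ∈ U 0, χ u = 1}

/-- the wavelet set -/
def Om : Set (PontryaginDual GG) := {χ | χ ∈ YY ∧ (χ (del 1 (-1)) ≠ 1 ∨
  (χ (del 0 (-1)) ≠ 1 ∧ χ (del 2 (-1)) ≠ 1))}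

lemma Om_iff (χ : PontryaginDual GG) (hχ : χ ∈ YY) (s0 s1 s2 : ℤˣ) (h0 : χ (del 0 (-1)) = sg s0)
    (h1 : χ (del 1 (-1)) = sg s1) (h2 : χ (del 2 (-1)) = sg s2) : χ ∈ Om ↔ PP s0 s1 s2 := by
  have key : ∀ s : ℤˣ, sg s ≠ 1 ↔ s ≠ 1 := by
    intro s
    rw [not_iff_not]
    exact ⟨fun h => sg_inj (by rw [h, sg_one]), fun h => by rw [h, sg_one]⟩
  constructor
  · rintro ⟨-, h⟩
    rwa [h0, h1, h2, key, key, key] at h
  · intro h
    refine ⟨hχ, ?_⟩
    rwa [h0, h1, h2, key, key, key]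

lemma avgC {ι : Type*} [Fintype ι] (h : GG → ℂ) (hi : Integrable h (haar : Measure GG))
    (v : ι → GG) : (Fintype.card ι : ℂ) * ∫ x, h x ∂(haar : Measure GG) =
    ∫ x, ∑ i, h (x * v i) ∂(haar : Measure GG) := by
  rw [integral_finsetSum _ fun i _ => hi.comp_mul_right (v i)]
  simp only [integral_mul_right_eq_self (μ := (haar : Measure GG)) h]
  rw [Finset.sum_const, Finset.card_univ, nsmul_eq_mul]

lemma psi_cont : Continuous psi := Complex.continuous_ofReal.comp psiR_cont
lemma psi_cpt : HasCompactSupport psi := psiR_cpt.comp_left Complex.ofReal_zero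

lemma fourier_psi (χ : PontryaginDual GG) :
    fourier psi χ = Om.indicator (fun _ => (1 : ℂ)) χ := by
  set h : GG → ℂ := fun x => psi x * conj ((χ x : Circle) : ℂ) with hh
  have hc : Continuous h :=
    psi_cont.mul (Complex.continuous_conj.comp (continuous_subtype_val.comp (map_continuous χ)))
  have hi : Integrable h (haar : Measure GG) :=
    hc.integrable_of_hasCompactSupport psi_cpt.mul_right
  have hU3 : ∀ x u : GG, u ∈ U 3 → (x * u ∈ U 3 ↔ x ∈ U 3) := fun x u hu =>
    (U 3).mul_mem_cancel_right hu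
  show ∫ x, h x ∂(haar : Measure GG) = _
  by_cases hY : χ ∈ YY
  · obtain ⟨s0, h0⟩ := chi_val χ (del 0 (-1))
    obtain ⟨s1, h1⟩ := chi_val χ (del 1 (-1))
    obtain ⟨s2, h2⟩ := chi_val χ (del 2 (-1))
    have hav := avgC h hi (fun v : ℤˣ × ℤˣ × ℤˣ => blk 0 v.1 v.2.1 v.2.2)
    have hsum : ∀ x, ∑ v : ℤˣ × ℤˣ × ℤˣ, h (x * blk 0 v.1 v.2.1 v.2.2) =
        (U 3 : Set GG).indicator (fun _ => ((cst * (if PP s0 s1 s2 then 8 else 0) : ℝ) : ℂ)) x := by
      intro x
      by_cases hx : x ∈ U 3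
      · have hb : ∀ a b c, blk 0 a b c ∈ U 3 := fun a b c k hk => blk_co3 _ _ _ _ _ (by omega)
        have hχx : χ x = sg (pw s0 (x 0) * pw s1 (x 1) * pw s2 (x 2)) := by
          have h3 : x * (blk 0 (x 0) (x 1) (x 2))⁻¹ ∈ U 0 := by
            intro k hk
            rw [mul_co, inv_co, blk_co]
            split_ifs with e1 e2 e3
            · subst e1; simp
            · rw [e2]; simp
            · rw [e3]; simp
            · rw [hx k (by omega)]; simp
          have h4 := hY _ h3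
          rw [map_mul, map_inv, mul_inv_eq_one] at h4
          rw [h4, chi_blk χ s0 s1 s2 h0 h1 h2]
        have h5 : ∀ v : ℤˣ × ℤˣ × ℤˣ, h (x * blk 0 v.1 v.2.1 v.2.2) =
            (cst : ℂ) * ((gg (x 0 * v.1) (x 1 * v.2.1) (x 2 * v.2.2) *
            ((pw s0 (x 0 * v.1) * pw s1 (x 1 * v.2.1) * pw s2 (x 2 * v.2.2) : ℤˣ) : ℤ) : ℤ) : ℂ) := by
          intro v
          simp only [hh]
          rw [map_mul, hχx, chi_blk χ s0 s1 s2 h0 h1 h2, ← map_mul, psi,
            psiR_pos ((hU3 _ _ (hb _ _ _)).2 hx), sg_coe]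
          have e0 : (x * blk 0 v.1 v.2.1 v.2.2) 0 = x 0 * v.1 := by rw [mul_co, blk_co0]
          have e1 : (x * blk 0 v.1 v.2.1 v.2.2) 1 = x 1 * v.2.1 := by
            rw [mul_co]; exact congrArg _ (blk_co1 0 _ _ _)
          have e2 : (x * blk 0 v.1 v.2.1 v.2.2) 2 = x 2 * v.2.2 := by
            rw [mul_co]; exact congrArg _ (blk_co2 0 _ _ _)
          rw [e0, e1, e2, pw_mul, pw_mul, pw_mul]
          push_cast
          simp only [map_mul, map_intCast]
          ring
        simp only [h5]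
        rw [← Finset.mul_sum, indicator_of_mem (show x ∈ (U 3 : Set GG) from hx)]
        have h6 := sum3 (fun a b c => gg a b c * ((pw s0 a * pw s1 b * pw s2 c : ℤˣ) : ℤ))
          (x 0) (x 1) (x 2)
        rw [FTsum s0 s1 s2] at h6
        have h7 := congrArg (fun t : ℤ => (t : ℂ)) h6
        simp only [Int.cast_sum] at h7
        rw [Fintype.sum_prod_type]
        simp only [Fintype.sum_prod_type]
        rw [h7]
        split_ifs <;> simp
      · have h5 : ∀ v : ℤˣ × ℤˣ × ℤˣ, h (x * blk 0 v.1 v.2.1 v.2.2) = 0 := by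
          intro v
          have hb : blk 0 v.1 v.2.1 v.2.2 ∈ U 3 := fun k hk => blk_co3 _ _ _ _ _ (by omega)
          simp only [hh, psi]
          rw [psiR_neg (mt (hU3 _ _ hb).1 hx)]
          simp
        simp only [h5, Finset.sum_const_zero]
        rw [indicator_of_notMem (show x ∉ (U 3 : Set GG) from hx)]
    simp only [hsum] at hav
    rw [integral_indicator_const _ (U_open 3).measurableSet] at hav
    have h8 : (Fintype.card (ℤˣ × ℤˣ × ℤˣ) : ℂ) = 8 := by
      have : Fintype.card (ℤˣ × ℤˣ × ℤˣ) = 8 := by decide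
      rw [this]; norm_num
    have h9 : cst * (haar : Measure GG).real (U 3) = 1 := inv_mul_cancel₀ (mur_U_pos 3).ne'
    by_cases hP : PP s0 s1 s2
    · rw [indicator_of_mem ((Om_iff χ hY s0 s1 s2 h0 h1 h2).2 hP)]
      rw [if_pos hP, h8] at hav
      have h10 : ((cst * (haar : Measure GG).real (U 3) : ℝ) : ℂ) = 1 := by rw [h9]; simp
      push_cast at h10
      have h11 : (haar : Measure GG).real (U 3) • ((cst * 8 : ℝ) : ℂ) = 8 := by
        rw [Complex.real_smul]
        push_cast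
        linear_combination (8 : ℂ) * h10
      rw [h11] at hav
      linear_combination (1 / 8 : ℂ) * hav
    · rw [indicator_of_notMem (mt (Om_iff χ hY s0 s1 s2 h0 h1 h2).1 hP)]
      rw [if_neg hP, h8] at hav
      simp only [mul_zero, Complex.ofReal_zero, smul_zero] at hav
      linear_combination (1 / 8 : ℂ) * hav
  · rw [indicator_of_notMem fun hχ => hY hχ.1]
    have h3 : ∃ u ∈ U 0, χ u ≠ 1 := by
      by_contra hcon
      push Not at hcon
      exact hY hcon
    obtain ⟨u, hu, hne⟩ := h3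
    have h4 : ∫ x, h (x * u) ∂(haar : Measure GG) = ∫ x, h x ∂(haar : Measure GG) :=
      integral_mul_right_eq_self (μ := (haar : Measure GG)) h u
    have h5 : ∀ x, h (x * u) = conj ((χ u : Circle) : ℂ) * h x := by
      intro x
      simp only [hh, psi]
      rw [psiR_inv x u hu, map_mul, Circle.coe_mul, map_mul]
      ring
    simp only [h5] at h4
    rw [integral_const_mul] at h4
    have h6 : (conj ((χ u : Circle) : ℂ) - 1) * ∫ x, h x ∂(haar : Measure GG) = 0 := by
      rw [sub_mul, h4, one_mul, sub_self]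
    rcases mul_eq_zero.1 h6 with h7 | h7
    · exfalso
      apply hne
      apply Circle.ext
      have h8 := congrArg (starRingEnd ℂ) (sub_eq_zero.1 h7)
      simpa using h8
    · exact h7

/-! ### The dual group -/

lemma eval_cont (x : GG) : Continuous fun χ : PontryaginDual GG => χ x := by
  have h1 : Continuous (ContinuousMonoidHom.toContinuousMap : (GG →ₜ* Circle) → C(GG, Circle)) :=
    continuous_induced_dom
  exact (continuous_eval_const (F := C(GG, Circle)) x).comp h1

lemma YY_open : IsOpen YY := by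
  have h1 : YY = {χ : PontryaginDual GG | Set.MapsTo χ (U 0 : Set GG) {z : Circle | z ≠ -1}} := by
    ext χ
    constructor
    · intro h u hu
      show χ u ≠ -1
      rw [h u hu]
      exact fun h => Circle.neg_ne_self 1 h.symm
    · intro h u hu
      obtain ⟨s, hs⟩ := chi_val χ u
      rcases Int.units_eq_one_or s with rfl | rfl
      · rw [hs, sg_one]
      · exact absurd (by rw [hs, sg_neg]) (h hu)
  rw [h1]
  exact isOpen_induced (ContinuousMap.isOpen_setOfPred_mapsTo U0_compact isOpen_ne)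

lemma Om_open : IsOpen Om := by
  have h0 : ∀ k : ℤ, IsOpen {χ : PontryaginDual GG | χ (del k (-1)) ≠ 1} := fun k =>
    isOpen_ne.preimage (eval_cont (del k (-1)))
  exact YY_open.inter ((h0 1).union ((h0 0).inter (h0 2)))

/-- the projection onto the discrete factor -/
def prj : GG →ₜ* D where
  toFun x := (eG x).1
  map_one' := by rw [map_one]; rfl
  map_mul' x y := by rw [map_mul]; rfl
  continuous_toFun := continuous_fst.comp eH.continuous

lemma YY_compact : IsCompact YY := by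
  have h1 : YY = Set.range (PontryaginDual.map prj) := by
    ext χ
    constructor
    · intro h
      refine ⟨(⟨⟨⟨fun d => χ (eG.symm (d, 1)), ?_⟩, ?_⟩, ?_⟩ : D →ₜ* Circle), ?_⟩
      · show χ (eG.symm 1) = 1
        rw [map_one, map_one]
      · intro d d'
        show χ (eG.symm (d * d', 1)) = χ (eG.symm (d, 1)) * χ (eG.symm (d', 1))
        rw [← map_mul, ← map_mul, Prod.mk_mul_mk, mul_one]
      · exact continuous_of_discreteTopology
      · apply PontryaginDual.ext
        intro x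
        show χ (eG.symm ((eG x).1, 1)) = χ x
        have h2 : x * (eG.symm ((eG x).1, 1))⁻¹ ∈ U 0 := by
          intro k hk
          obtain ⟨j, rfl⟩ := Int.eq_ofNat_of_zero_le hk
          exact mul_inv_cancel (x (j : ℤ))
        have h3 := h _ h2
        rw [map_mul, map_inv, mul_inv_eq_one] at h3
        exact h3.symm
    · rintro ⟨η, rfl⟩ u hu
      rw [PontryaginDual.map_apply]
      have h2 : prj u = 1 := by
        apply Subtype.ext
        funext j
        exact hu j (by omega)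
      rw [h2, map_one]
  rw [h1]
  exact isCompact_range (PontryaginDual.map prj).continuous_toFun

/-- the `i`-th coordinate character -/
def eta (i : ℤ) : PontryaginDual GG :=
  (⟨⟨⟨fun x => sg (x i), by rw [one_co, map_one]⟩, fun x y => by
    show sg ((x * y) i) = sg (x i) * sg (y i)
    rw [mul_co, map_mul]⟩, by
    refine cont_of_inv _ i fun x u hu => ?_
    show sg ((x * u) i) = sg (x i)
    rw [mul_co, hu i le_rfl, mul_one]⟩ : GG →ₜ* Circle)

lemma eta_apply (i : ℤ) (x : GG) : eta i x = sg (x i) := rfl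

/-- `eta i` if `a = -1` and `1` if `a = 1` -/
def etap (i : ℤ) (a : ℤˣ) : PontryaginDual GG := if a = 1 then 1 else eta i

lemma etap_apply (i : ℤ) (a : ℤˣ) (x : GG) : etap i a x = sg (pw (x i) a) := by
  rcases Int.units_eq_one_or a with rfl | rfl
  · rw [etap, if_pos rfl, pw, if_pos rfl, map_one, PontryaginDual.one_apply]
  · rw [etap, if_neg (by decide), pw, if_neg (by decide), eta_apply]

def etas (v : ℤˣ × ℤˣ × ℤˣ) : PontryaginDual GG := etap 0 v.1 * etap 1 v.2.1 * etap 2 v.2.2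

lemma pw_neg : ∀ a : ℤˣ, pw (-1) a = a := by decide
lemma pw_one : ∀ a : ℤˣ, pw 1 a = 1 := by decide

lemma mul_app (χ χ' : PontryaginDual GG) (x : GG) : (χ * χ') x = χ x * χ' x := rfl

lemma etas_apply (v : ℤˣ × ℤˣ × ℤˣ) (x : GG) :
    etas v x = sg (pw (x 0) v.1) * sg (pw (x 1) v.2.1) * sg (pw (x 2) v.2.2) := by
  rw [etas, mul_app, mul_app, etap_apply, etap_apply, etap_apply]

lemma etas_0 (v : ℤˣ × ℤˣ × ℤˣ) : etas v (del 0 (-1)) = sg v.1 := by
  rw [etas_apply]; simp [del_co, pw_neg, pw_one]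
lemma etas_1 (v : ℤˣ × ℤˣ × ℤˣ) : etas v (del 1 (-1)) = sg v.2.1 := by
  rw [etas_apply]; simp [del_co, pw_neg, pw_one]
lemma etas_2 (v : ℤˣ × ℤˣ × ℤˣ) : etas v (del 2 (-1)) = sg v.2.2 := by
  rw [etas_apply]; simp [del_co, pw_neg, pw_one]

lemma etas_YY (v : ℤˣ × ℤˣ × ℤˣ) : etas v ∈ YY := by
  intro u hu
  rw [etas_apply, hu 0 le_rfl, hu 1 (by omega), hu 2 (by omega), pw_one, pw_one, pw_one]
  simp

lemma YY_mul {χ η : PontryaginDual GG} (hη : η ∈ YY) : χ * η ∈ YY ↔ χ ∈ YY := by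
  refine forall_congr' fun u => forall_congr' fun hu => ?_
  rw [mul_app, hη u hu, mul_one]

lemma YY_div {χ η : PontryaginDual GG} (hη : η ∈ YY) : χ / η ∈ YY ↔ χ ∈ YY := by
  rw [← YY_mul (χ := χ / η) hη, div_mul_cancel]

lemma count_id (χ : PontryaginDual GG) :
    ∑ v : ℤˣ × ℤˣ × ℤˣ, Om.indicator (fun _ => (1 : ℝ≥0∞)) (χ * etas v) =
      YY.indicator (fun _ => (5 : ℝ≥0∞)) χ := by
  by_cases hY : χ ∈ YY
  · obtain ⟨s0, h0⟩ := chi_val χ (del 0 (-1))
    obtain ⟨s1, h1⟩ := chi_val χ (del 1 (-1))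
    obtain ⟨s2, h2⟩ := chi_val χ (del 2 (-1))
    rw [indicator_of_mem hY]
    have h3 : ∀ v : ℤˣ × ℤˣ × ℤˣ, Om.indicator (fun _ => (1 : ℝ≥0∞)) (χ * etas v) =
        ((if PP (s0 * v.1) (s1 * v.2.1) (s2 * v.2.2) then 1 else 0 : ℕ) : ℝ≥0∞) := by
      intro v
      have h4 := Om_iff (χ * etas v) ((YY_mul (etas_YY v)).2 hY) (s0 * v.1) (s1 * v.2.1) (s2 * v.2.2)
        (by rw [mul_app, h0, etas_0, map_mul]) (by rw [mul_app, h1, etas_1, map_mul])
        (by rw [mul_app, h2, etas_2, map_mul])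
      by_cases hP : PP (s0 * v.1) (s1 * v.2.1) (s2 * v.2.2)
      · rw [indicator_of_mem (h4.2 hP), if_pos hP, Nat.cast_one]
      · rw [indicator_of_notMem (mt h4.1 hP), if_neg hP, Nat.cast_zero]
    simp only [h3]
    rw [← Nat.cast_sum, Fintype.sum_prod_type]
    simp only [Fintype.sum_prod_type]
    rw [PPsum s0 s1 s2]
    norm_num
  · rw [indicator_of_notMem hY]
    refine Finset.sum_eq_zero fun v _ => ?_
    rw [indicator_of_notMem]
    intro h
    exact hY ((YY_mul (etas_YY v)).1 h.1)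

lemma Om_pos : 0 < (haar : Measure (PontryaginDual GG)) Om := by
  refine Om_open.measure_pos _ ⟨etas (1, -1, 1), etas_YY _, Or.inl ?_⟩
  rw [etas_1, sg_neg]
  exact Circle.neg_ne_self 1

lemma Om_fin : (haar : Measure (PontryaginDual GG)) Om < ⊤ :=
  (measure_mono fun χ (h : χ ∈ Om) => h.1).trans_lt YY_compact.measure_lt_top

lemma YY_Om : 5 * (haar : Measure (PontryaginDual GG)) YY = 8 * (haar : Measure (PontryaginDual GG)) Om := by
  have h1 : ∫⁻ χ, ∑ v : ℤˣ × ℤˣ × ℤˣ, Om.indicator (fun _ => (1 : ℝ≥0∞)) (χ * etas v)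
      ∂(haar : Measure (PontryaginDual GG)) = 5 * (haar : Measure (PontryaginDual GG)) YY := by
    simp only [count_id]
    rw [lintegral_indicator_const YY_open.measurableSet]
  have hmeas : Measurable (Om.indicator (fun _ => (1 : ℝ≥0∞))) :=
    measurable_const.indicator Om_open.measurableSet
  have hmeas2 : ∀ v : ℤˣ × ℤˣ × ℤˣ, Measurable fun χ : PontryaginDual GG =>
      Om.indicator (fun _ => (1 : ℝ≥0∞)) (χ * etas v) := fun v => hmeas.comp (measurable_mul_const _)
  rw [lintegral_finsetSum _ fun v _ => hmeas2 v] at h1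
  rw [← h1]
  have h2 : ∀ v : ℤˣ × ℤˣ × ℤˣ, ∫⁻ χ, Om.indicator (fun _ => (1 : ℝ≥0∞)) (χ * etas v)
      ∂(haar : Measure (PontryaginDual GG)) = (haar : Measure (PontryaginDual GG)) Om := by
    intro v
    rw [lintegral_mul_right_eq_self (μ := (haar : Measure (PontryaginDual GG)))
      (Om.indicator (fun _ => (1 : ℝ≥0∞))) (etas v), lintegral_indicator_const Om_open.measurableSet,
      one_mul]
  simp only [h2]
  rw [Finset.sum_const, Finset.card_univ, nsmul_eq_mul]
  have : Fintype.card (ℤˣ × ℤˣ × ℤˣ) = 8 := by decide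
  rw [this]; norm_num

lemma not_tiles : ¬ TilesAdditively Om := by
  rintro ⟨T, hT, hae⟩
  have : Countable T := hT
  have hmeas : Measurable (Om.indicator (fun _ => (1 : ℝ≥0∞))) :=
    measurable_const.indicator Om_open.measurableSet
  have h1 : (haar : Measure (PontryaginDual GG)) YY =
      ∫⁻ χ in YY, ∑' t : T, Om.indicator (fun _ => (1 : ℝ≥0∞)) (χ / (t : PontryaginDual GG))
        ∂(haar : Measure (PontryaginDual GG)) := by
    rw [lintegral_congr_ae (ae_restrict_of_ae hae)]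
    simp
  have hmeas2 : ∀ t : T, Measurable fun χ : PontryaginDual GG =>
      Om.indicator (fun _ => (1 : ℝ≥0∞)) (χ / (t : PontryaginDual GG)) := fun t =>
    hmeas.comp (measurable_div_const _)
  rw [lintegral_tsum fun t => (hmeas2 t).aemeasurable] at h1
  have h2 : ∀ t : T, ∫⁻ χ in YY, Om.indicator (fun _ => (1 : ℝ≥0∞)) (χ / (t : PontryaginDual GG))
        ∂(haar : Measure (PontryaginDual GG)) =
      YY.indicator (fun _ => (haar : Measure (PontryaginDual GG)) Om) (t : PontryaginDual GG) := by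
    intro t
    by_cases ht : (t : PontryaginDual GG) ∈ YY
    · rw [indicator_of_mem ht, setLIntegral_eq_of_support_subset]
      · rw [lintegral_div_right_eq_self (μ := (haar : Measure (PontryaginDual GG)))
          (Om.indicator (fun _ => (1 : ℝ≥0∞))) (t : PontryaginDual GG),
          lintegral_indicator_const Om_open.measurableSet, one_mul]
      · intro χ hχ
        have h3 : χ / (t : PontryaginDual GG) ∈ Om := by
          by_contra h4
          exact hχ (indicator_of_notMem h4 _)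
        exact (YY_div ht).1 h3.1
    · rw [indicator_of_notMem ht, setLIntegral_congr_fun (g := fun _ => 0) YY_open.measurableSet,
        lintegral_zero]
      intro χ hχ
      refine indicator_of_notMem (fun h4 => ht ?_) _
      have h5 := (YY_div h4.1).2 hχ
      rwa [div_div_cancel] at h5
  simp only [h2] at h1
  rw [tsum_subtype T (YY.indicator (fun _ => (haar : Measure (PontryaginDual GG)) Om)),
    Set.indicator_indicator, ← tsum_subtype (T ∩ YY) (fun _ => (haar : Measure (PontryaginDual GG)) Om),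
    ENNReal.tsum_set_const] at h1
  have h3 := YY_Om
  rw [h1, ← mul_assoc] at h3
  have h4 : (5 : ℝ≥0∞) * ((T ∩ YY).encard : ℝ≥0∞) = 8 :=
    (ENNReal.mul_left_inj Om_pos.ne' Om_fin.ne).1 h3
  cases hn : (T ∩ YY).encard with
  | top =>
    rw [hn] at h4
    simp at h4
  | coe n =>
    rw [hn] at h4
    have h5 : ((5 * n : ℕ) : ℝ≥0∞) = ((8 : ℕ) : ℝ≥0∞) := by
      push_cast
      simpa using h4
    have h6 : 5 * n = 8 := by exact_mod_cast h5
    omega

/-! ### Further properties of `G` -/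

lemma GG_infinite : Infinite GG := by
  refine Infinite.of_injective (fun j : ℕ => del j (-1)) fun i j h => ?_
  have h1 : del (i : ℤ) (-1) (i : ℤ) = del (j : ℤ) (-1) (i : ℤ) := congrArg (fun x : GG => x (i : ℤ)) h
  rw [del_co, del_co, if_pos rfl] at h1
  by_contra hne
  rw [if_neg (by exact_mod_cast hne)] at h1
  exact absurd h1 (by decide)

lemma GG_not_discrete : ¬ DiscreteTopology GG := by
  intro hd
  have h1 : ({1} : Set GG) ∈ 𝓝 (1 : GG) := (isOpen_discrete _).mem_nhds rfl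
  obtain ⟨m, hm⟩ := nhds_one_sub h1
  have h2 : del (m - 1) (-1) ∈ U m := by
    intro k hk
    rw [del_co, if_neg (by omega)]
  have h3 : del (m - 1) (-1) = 1 := hm h2
  have h4 : del (m - 1) (-1) (m - 1) = (1 : GG) (m - 1) := by rw [h3]
  rw [del_co, if_pos rfl, one_co] at h4
  exact absurd h4 (by decide)

/-- the lattice of sequences that are `1` at the negative places -/
def Lat : Subgroup GG where
  carrier := {x | ∀ k < 0, x k = 1}
  mul_mem' := fun {a b} ha hb k hk => by simp [ha k hk, hb k hk]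
  one_mem' := fun k _ => rfl
  inv_mem' := fun {a} ha k hk => by simp [ha k hk]

lemma Lat_discrete : DiscreteTopology Lat := by
  refine discreteTopology_of_isOpen_singleton_one ?_
  have h1 : ({1} : Set Lat) = Subtype.val ⁻¹' (U 0 : Set GG) := by
    ext x
    constructor
    · rintro rfl
      exact (U 0).one_mem
    · intro hx
      apply Subtype.ext
      ext k
      rcases lt_or_ge k 0 with h | h
      · exact congrArg _ (x.2 k h)
      · exact congrArg _ (hx k h)
  rw [h1]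
  exact U0_open.preimage continuous_subtype_val

lemma Lat_cocompact : CompactSpace (GG ⧸ Lat) := by
  refine ⟨?_⟩
  have h1 : (univ : Set (GG ⧸ Lat)) = (QuotientGroup.mk : GG → GG ⧸ Lat) '' (U 0 : Set GG) := by
    symm
    rw [Set.eq_univ_iff_forall]
    intro q
    obtain ⟨x, rfl⟩ := QuotientGroup.mk_surjective q
    refine ⟨eG.symm (1, (eG x).2), ?_, ?_⟩
    · intro k hk
      obtain ⟨j, rfl⟩ := Int.eq_ofNat_of_zero_le hk
      rfl
    · rw [QuotientGroup.eq]
      intro k hk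
      obtain ⟨j, rfl⟩ := Int.eq_negSucc_of_lt_zero hk
      exact inv_mul_cancel (x (Int.negSucc j))
  rw [h1]
  exact U0_compact.image continuous_quot_mk

end

/-- A wavelet set with respect to a non-product index set need not tile additively. -/
theorem main : ∃ (G : Type) (_ : CommGroup G) (_ : TopologicalSpace G)
    (_ : IsTopologicalGroup G) (_ : LocallyCompactSpace G) (_ : MeasurableSpace G)
    (_ : BorelSpace G),
    T2Space G ∧ SecondCountableTopology G ∧ Infinite G ∧ ¬ DiscreteTopology G ∧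
    (∃ Γ : Subgroup G, DiscreteTopology Γ ∧ CompactSpace (G ⧸ Γ)) ∧
    ∃ B : Set (G × (G ≃ₜ* G)), B.Countable ∧ (∀ b ∈ B, mulEquivHaarChar b.2 ≠ 1) ∧
      (∃ a : G ≃ₜ* G, (1, a) ∈ B) ∧
      ∃ Ω : Set (PontryaginDual G), IsWaveletSet B Ω ∧ ¬ TilesAdditively Ω := by
  refine ⟨GG, inferInstance, inferInstance, inferInstance, inferInstance, inferInstance,
    inferInstance, inferInstance, inferInstance, GG_infinite, GG_not_discrete,
    ⟨Lat, Lat_discrete, Lat_cocompact⟩, BB, BB_countable, ?_, ⟨au 0 0, BB_one⟩, Om, ?_, not_tiles⟩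
  · rintro ⟨l, a⟩ ⟨n, z, -, ha⟩
    simp only at ha ⊢
    rw [ha]
    exact au_char n z
  · exact ⟨Om_open.measurableSet, Om_pos, Om_fin, psi, psi_cont.integrable_of_hasCompactSupport psi_cpt,
      psi_cont.memLp_of_hasCompactSupport psi_cpt, fourier_psi, isOrthBasis_psi⟩

end Pool.Agent.V1175.BA
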